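import Mathlib

/-!
# Étale groupoids, dynamic asymptotic dimension and finite dynamical complexity

The definitions follow the problem file word by word. A groupoid is presented by its space `G`
of arrows; a unit `x` is identified with its identity arrow, so that the source and range maps
are maps `G → G` and the unit space is a subset of `G`.
-/

namespace Pool.Agent.Lib.MP_153b2f_an

open Set Topology

/-- An étale groupoid: a locally compact Hausdorff topological groupoid (with space of arrows
`G`) whose source and range maps `s r : G → G` are local homeomorphisms. The product `mul g h`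
is the groupoid product when `s g = r h`; other values of `mul` are irrelevant. -/
structure EtaleGroupoid (G : Type) [TopologicalSpace G] [LocallyCompactSpace G] [T2Space G] where
  /-- the source map -/
  s : G → G
  /-- the range map -/
  r : G → G
  /-- the product of composable arrows -/
  mul : G → G → G
  /-- the inverse of an arrow -/
  inv : G → G
  s_s : ∀ g, s (s g) = s g
  r_s : ∀ g, r (s g) = s g
  s_r : ∀ g, s (r g) = r g
  r_r : ∀ g, r (r g) = r g
  s_mul : ∀ g h, s g = r h → s (mul g h) = s h
  r_mul : ∀ g h, s g = r h → r (mul g h) = r g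
  mul_assoc : ∀ g h k, s g = r h → s h = r k → mul (mul g h) k = mul g (mul h k)
  mul_source : ∀ g, mul g (s g) = g
  range_mul : ∀ g, mul (r g) g = g
  s_inv : ∀ g, s (inv g) = r g
  r_inv : ∀ g, r (inv g) = s g
  inv_mul : ∀ g, mul (inv g) g = s g
  mul_inv : ∀ g, mul g (inv g) = r g
  continuousOn_mul : ContinuousOn (fun p : G × G => mul p.1 p.2) {p | s p.1 = r p.2}
  continuous_inv : Continuous inv
  isLocalHomeomorph_s : IsLocalHomeomorph s
  isLocalHomeomorph_r : IsLocalHomeomorph r

namespace EtaleGroupoid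

variable {G : Type} [TopologicalSpace G] [LocallyCompactSpace G] [T2Space G]
  (𝒢 : EtaleGroupoid G)

/-- The unit space `G⁽⁰⁾ ⊆ G`. -/
def units : Set G := range 𝒢.s

/-- A subset of `G` is relatively compact if its closure is compact. -/
def RelCompact (S : Set G) : Prop := IsCompact (closure S)

/-- A subgroupoid of `G`: a set of arrows closed under composition and inversion. -/
def IsSubgroupoid (H : Set G) : Prop :=
  (∀ g ∈ H, ∀ h ∈ H, 𝒢.s g = 𝒢.r h → 𝒢.mul g h ∈ H) ∧ ∀ g ∈ H, 𝒢.inv g ∈ H

/-- The subgroupoid generated by a set of arrows. -/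
def generated (S : Set G) : Set G := ⋂₀ {H | 𝒢.IsSubgroupoid H ∧ S ⊆ H}

/-- `K` restricted to `U`: the arrows of `K` with source and range in `U`. -/
def res (K U : Set G) : Set G := {g ∈ K | 𝒢.s g ∈ U ∧ 𝒢.r g ∈ U}

/-- `G` has dynamic asymptotic dimension at most `d`. -/
def DADLE (d : ℕ) : Prop :=
  ∀ K : Set G, IsOpen K → RelCompact K →
    ∃ U : Fin (d + 1) → Set G, (∀ i, IsOpen (U i) ∧ U i ⊆ 𝒢.units) ∧
      𝒢.s '' K ∪ 𝒢.r '' K ⊆ ⋃ i, U i ∧
      ∀ i, RelCompact (𝒢.generated (𝒢.res K (U i)))

/-- `H` is decomposable over the set `C` of subgroupoids: for every open relatively compact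
`K ⊆ H` there is an open cover `H⁽⁰⁾ = U₀ ∪ U₁` such that the subgroupoid generated by the
arrows of `K` with source and range in `Uᵢ` is contained in a member of `C`. -/
def Decomposable (H : Set G) (C : Set (Set G)) : Prop :=
  ∀ K ⊆ H, IsOpen K → RelCompact K →
    ∃ U₀ U₁ : Set G, IsOpen U₀ ∧ IsOpen U₁ ∧ H ∩ 𝒢.units = U₀ ∪ U₁ ∧
      (∃ C₀ ∈ C, 𝒢.generated (𝒢.res K U₀) ⊆ C₀) ∧
      (∃ C₁ ∈ C, 𝒢.generated (𝒢.res K U₁) ⊆ C₁)

/-- The same as `Decomposable`, but only for those open `K ⊆ H` which are relatively compact in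
the space `H` (that is, the closure of `K` is compact and contained in `H`). -/
def WeaklyDecomposable (H : Set G) (C : Set (Set G)) : Prop :=
  ∀ K ⊆ H, IsOpen K → RelCompact K → closure K ⊆ H →
    ∃ U₀ U₁ : Set G, IsOpen U₀ ∧ IsOpen U₁ ∧ H ∩ 𝒢.units = U₀ ∪ U₁ ∧
      (∃ C₀ ∈ C, 𝒢.generated (𝒢.res K U₀) ⊆ C₀) ∧
      (∃ C₁ ∈ C, 𝒢.generated (𝒢.res K U₁) ⊆ C₁)

/-- The smallest set of open subgroupoids of `G` which contains every relatively compact open
subgroupoid and every open subgroupoid `H` such that `dec H 𝒟` holds for the set `𝒟` itself;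
here `dec` is one of the two notions of decomposability. -/
def smallestClass (dec : Set G → Set (Set G) → Prop) : Set (Set G) :=
  ⋂₀ {D | (∀ H ∈ D, IsOpen H ∧ 𝒢.IsSubgroupoid H) ∧
    (∀ H, IsOpen H → 𝒢.IsSubgroupoid H → RelCompact H → H ∈ D) ∧
    (∀ H, IsOpen H → 𝒢.IsSubgroupoid H → dec H D → H ∈ D)}

/-- `G` has finite dynamical complexity. -/
def HasFDC : Prop := (univ : Set G) ∈ 𝒢.smallestClass 𝒢.Decomposable

/-- `G` has finite dynamical complexity in the (formally) weaker sense in which only subsets `K`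
that are relatively compact in `H` have to be considered in the definition of
decomposability. -/
def HasWeakFDC : Prop := (univ : Set G) ∈ 𝒢.smallestClass 𝒢.WeaklyDecomposable

end EtaleGroupoid

end Pool.Agent.Lib.MP_153b2f_an
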