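import Mathlib
import Pool.Agent.Lib.MP_153b2f_an.Defs

section

section

/-!
# The Game of Y has a winner

The cells of the triangular board of side `M` are the triples of natural numbers with sum `M`.
In every colouring of the cells with two colours there is a connected monochromatic set of cells
touching all three sides. The proof is the micro-reduction of Schensted and Titus.
-/

namespace Pool.Agent.Lib.MP_153b2f_an

open Relation

/-- cells -/
abbrev Cell : Type := ℕ × ℕ × ℕ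

/-- two cells with the same coordinate sum are neighbours (or equal) -/
def Nbr (p q : Cell) : Prop :=
  p.1 + p.2.1 + p.2.2 = q.1 + q.2.1 + q.2.2 ∧
  p.1 ≤ q.1 + 1 ∧ q.1 ≤ p.1 + 1 ∧ p.2.1 ≤ q.2.1 + 1 ∧ q.2.1 ≤ p.2.1 + 1 ∧
  p.2.2 ≤ q.2.2 + 1 ∧ q.2.2 ≤ p.2.2 + 1

theorem Nbr.refl (p : Cell) : Nbr p p :=
  ⟨rfl, Nat.le_succ _, Nat.le_succ _, Nat.le_succ _, Nat.le_succ _, Nat.le_succ _, Nat.le_succ _⟩

theorem nbr_mk {i j k i' j' k' : ℕ} (h : i + j + k = i' + j' + k')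
    (h1 : i ≤ i' + 1 ∧ i' ≤ i + 1 ∧ j ≤ j' + 1 ∧ j' ≤ j + 1 ∧ k ≤ k' + 1 ∧ k' ≤ k + 1) :
    Nbr (i, j, k) (i', j', k') := ⟨h, h1⟩

/-- a step between neighbouring cells of the board of side `M`, both of colour `χ`. -/
def Link (M : ℕ) (col : Cell → Bool) (χ : Bool) (p q : Cell) : Prop :=
  p.1 + p.2.1 + p.2.2 = M ∧ Nbr p q ∧ col p = χ ∧ col q = χ

/-- majority -/
def maj (a b c : Bool) : Bool := (a && b) || (b && c) || (a && c)

theorem maj_two {a b c χ : Bool} (h : maj a b c = χ) :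
    (a = χ ∧ b = χ) ∨ (b = χ ∧ c = χ) ∨ (a = χ ∧ c = χ) := by
  revert h; revert a b c χ; decide

/-- the reduced colouring -/
def red (col : Cell → Bool) (p : Cell) : Bool :=
  maj (col (p.1 + 1, p.2.1, p.2.2)) (col (p.1, p.2.1 + 1, p.2.2)) (col (p.1, p.2.1, p.2.2 + 1))

/-- `a` is one of the three cells above the reduced cell `p` -/
def Above (p a : Cell) : Prop :=
  a = (p.1 + 1, p.2.1, p.2.2) ∨ a = (p.1, p.2.1 + 1, p.2.2) ∨ a = (p.1, p.2.1, p.2.2 + 1)

theorem Above.sum {p a : Cell} (h : Above p a) :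
    a.1 + a.2.1 + a.2.2 = p.1 + p.2.1 + p.2.2 + 1 := by
  rcases h with rfl | rfl | rfl <;> simp only <;> omega

theorem Above.nbr {p a b : Cell} (ha : Above p a) (hb : Above p b) : Nbr a b := by
  rcases ha with rfl | rfl | rfl <;> rcases hb with rfl | rfl | rfl <;>
    first | exact Nbr.refl _ | exact nbr_mk (by omega) (by omega)

theorem exists_above {col : Cell → Bool} {χ : Bool} {p : Cell} (h : red col p = χ) :
    ∃ a, Above p a ∧ col a = χ := by
  rcases maj_two h with ⟨h1, -⟩ | ⟨h1, -⟩ | ⟨h1, -⟩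
  · exact ⟨_, Or.inl rfl, h1⟩
  · exact ⟨_, Or.inr (Or.inl rfl), h1⟩
  · exact ⟨_, Or.inl rfl, h1⟩

/-- either the common cell of two neighbouring triangles has colour `χ`, or two other
neighbouring cells have. -/
theorem bridge {col : Cell → Bool} {χ : Bool} {p q : Cell} (hpq : Nbr p q)
    (hp : red col p = χ) (hq : red col q = χ) :
    ∃ u v, Above p u ∧ Above q v ∧ col u = χ ∧ col v = χ ∧ Nbr u v := by
  obtain ⟨i, j, k⟩ := p
  obtain ⟨i', j', k'⟩ := q
  have hcase : (i' = i ∧ j' = j ∧ k' = k) ∨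
      (i' = i + 1 ∧ j = j' + 1 ∧ k' = k) ∨ (i' = i + 1 ∧ j' = j ∧ k = k' + 1) ∨
      (i = i' + 1 ∧ j' = j + 1 ∧ k' = k) ∨ (i' = i ∧ j' = j + 1 ∧ k = k' + 1) ∨
      (i = i' + 1 ∧ j' = j ∧ k' = k + 1) ∨ (i' = i ∧ j = j' + 1 ∧ k' = k + 1) := by
    unfold Nbr at hpq
    simp only at hpq
    omega
  have hp' := maj_two hp
  have hq' := maj_two hq
  simp only at hp' hq'
  rcases hcase with ⟨rfl, rfl, rfl⟩ | ⟨rfl, rfl, rfl⟩ | ⟨rfl, rfl, rfl⟩ | ⟨rfl, rfl, rfl⟩ |
    ⟨rfl, rfl, rfl⟩ | ⟨rfl, rfl, rfl⟩ | ⟨rfl, rfl, rfl⟩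
  · obtain ⟨a, ha, hc⟩ := exists_above hp
    exact ⟨a, a, ha, ha, hc, hc, ha.nbr ha⟩
  · -- common cell `(i+1, j'+1, k)`
    by_cases hs : col (i + 1, j' + 1, k') = χ
    · exact ⟨_, _, Or.inl rfl, Or.inr (Or.inl rfl), hs, hs, Nbr.refl _⟩
    · have h1 : col (i, j' + 1, k' + 1) = χ := by tauto
      have h2 : col (i + 1, j', k' + 1) = χ := by tauto
      exact ⟨_, _, Or.inr (Or.inr rfl), Or.inr (Or.inr rfl), h1, h2,
        nbr_mk (by first | omega | (simp only; omega)) (by first | omega | (simp only; omega))⟩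
  · by_cases hs : col (i + 1, j', k' + 1) = χ
    · exact ⟨_, _, Or.inl rfl, Or.inr (Or.inr rfl), hs, hs, Nbr.refl _⟩
    · have h1 : col (i, j' + 1, k' + 1) = χ := by tauto
      have h2 : col (i + 1, j' + 1, k') = χ := by tauto
      exact ⟨_, _, Or.inr (Or.inl rfl), Or.inr (Or.inl rfl), h1, h2,
        nbr_mk (by first | omega | (simp only; omega)) (by first | omega | (simp only; omega))⟩
  · by_cases hs : col (i' + 1, j + 1, k') = χ
    · exact ⟨_, _, Or.inr (Or.inl rfl), Or.inl rfl, hs, hs, Nbr.refl _⟩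
    · have h1 : col (i' + 1, j, k' + 1) = χ := by tauto
      have h2 : col (i', j + 1, k' + 1) = χ := by tauto
      exact ⟨_, _, Or.inr (Or.inr rfl), Or.inr (Or.inr rfl), h1, h2,
        nbr_mk (by first | omega | (simp only; omega)) (by first | omega | (simp only; omega))⟩
  · by_cases hs : col (i', j + 1, k' + 1) = χ
    · exact ⟨_, _, Or.inr (Or.inl rfl), Or.inr (Or.inr rfl), hs, hs,
        Nbr.refl _⟩
    · have h1 : col (i' + 1, j, k' + 1) = χ := by tauto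
      have h2 : col (i' + 1, j + 1, k') = χ := by tauto
      exact ⟨_, _, Or.inl rfl, Or.inl rfl, h1, h2, nbr_mk (by first | omega | (simp only; omega)) (by first | omega | (simp only; omega))⟩
  · by_cases hs : col (i' + 1, j', k + 1) = χ
    · exact ⟨_, _, Or.inr (Or.inr rfl), Or.inl rfl, hs, hs, Nbr.refl _⟩
    · have h1 : col (i' + 1, j' + 1, k) = χ := by tauto
      have h2 : col (i', j' + 1, k + 1) = χ := by tauto
      exact ⟨_, _, Or.inr (Or.inl rfl), Or.inr (Or.inl rfl), h1, h2,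
        nbr_mk (by first | omega | (simp only; omega)) (by first | omega | (simp only; omega))⟩
  · by_cases hs : col (i', j' + 1, k + 1) = χ
    · exact ⟨_, _, Or.inr (Or.inr rfl), Or.inr (Or.inl rfl), hs, hs,
        Nbr.refl _⟩
    · have h1 : col (i' + 1, j' + 1, k) = χ := by tauto
      have h2 : col (i' + 1, j', k + 1) = χ := by tauto
      exact ⟨_, _, Or.inl rfl, Or.inl rfl, h1, h2, nbr_mk (by first | omega | (simp only; omega)) (by first | omega | (simp only; omega))⟩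

theorem lift_conn {M : ℕ} {col : Cell → Bool} {χ : Bool} {p q : Cell}
    (hpM : p.1 + p.2.1 + p.2.2 = M)
    (h : ReflTransGen (Link M (red col) χ) p q) :
    q.1 + q.2.1 + q.2.2 = M ∧ ∀ a b, Above p a → Above q b → col a = χ → col b = χ →
      ReflTransGen (Link (M + 1) col χ) a b := by
  induction h with
  | refl =>
    refine ⟨hpM, fun a b ha hb hca hcb => ReflTransGen.single ⟨?_, ha.nbr hb, hca, hcb⟩⟩
    rw [ha.sum, hpM]
  | @tail q r _ hqr ih =>
    obtain ⟨ihM, ih⟩ := ih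
    obtain ⟨-, hn, hq, hr⟩ := hqr
    refine ⟨by rw [← hn.1, ihM], fun a b ha hb hca hcb => ?_⟩
    obtain ⟨u, v, hu, hv, hcu, hcv, huv⟩ := bridge hn hq hr
    have h1 := ih a u ha hu hca hcu
    refine (h1.tail ⟨by rw [hu.sum, ihM], huv, hcu, hcv⟩).tail
      ⟨by rw [hv.sum, ← hn.1, ihM], hv.nbr hb, hcv, hcb⟩

/-- The Game of Y has a winner: a connected monochromatic set touching all three sides. -/
theorem gameY (M : ℕ) (col : Cell → Bool) :
    ∃ χ : Bool, ∃ p₁ p₂ p₃ : Cell, p₁.1 = 0 ∧ p₂.2.1 = 0 ∧ p₃.2.2 = 0 ∧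
      p₁.1 + p₁.2.1 + p₁.2.2 = M ∧ p₂.1 + p₂.2.1 + p₂.2.2 = M ∧ p₃.1 + p₃.2.1 + p₃.2.2 = M ∧
      col p₁ = χ ∧ col p₂ = χ ∧ col p₃ = χ ∧
      ReflTransGen (Link M col χ) p₁ p₂ ∧ ReflTransGen (Link M col χ) p₁ p₃ := by
  induction M generalizing col with
  | zero =>
    exact ⟨col (0, 0, 0), (0, 0, 0), (0, 0, 0), (0, 0, 0), rfl, rfl, rfl, rfl, rfl, rfl, rfl, rfl,
      rfl, ReflTransGen.refl, ReflTransGen.refl⟩
  | succ M ih =>
    obtain ⟨χ, p₁, p₂, p₃, h1, h2, h3, s1, s2, s3, c1, c2, c3, l12, l13⟩ := ih (red col)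
    have e1 : ∃ a, Above p₁ a ∧ col a = χ ∧ a.1 = 0 := by
      obtain ⟨i, j, k⟩ := p₁
      simp only at h1
      subst h1
      rcases maj_two c1 with ⟨-, h⟩ | ⟨h, -⟩ | ⟨-, h⟩
      · exact ⟨_, Or.inr (Or.inl rfl), h, rfl⟩
      · exact ⟨_, Or.inr (Or.inl rfl), h, rfl⟩
      · exact ⟨_, Or.inr (Or.inr rfl), h, rfl⟩
    have e2 : ∃ a, Above p₂ a ∧ col a = χ ∧ a.2.1 = 0 := by
      obtain ⟨i, j, k⟩ := p₂
      simp only at h2
      subst h2
      rcases maj_two c2 with ⟨h, -⟩ | ⟨-, h⟩ | ⟨h, -⟩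
      · exact ⟨_, Or.inl rfl, h, rfl⟩
      · exact ⟨_, Or.inr (Or.inr rfl), h, rfl⟩
      · exact ⟨_, Or.inl rfl, h, rfl⟩
    have e3 : ∃ a, Above p₃ a ∧ col a = χ ∧ a.2.2 = 0 := by
      obtain ⟨i, j, k⟩ := p₃
      simp only at h3
      subst h3
      rcases maj_two c3 with ⟨h, -⟩ | ⟨h, -⟩ | ⟨h, -⟩
      · exact ⟨_, Or.inl rfl, h, rfl⟩
      · exact ⟨_, Or.inr (Or.inl rfl), h, rfl⟩
      · exact ⟨_, Or.inl rfl, h, rfl⟩
    obtain ⟨a₁, ha₁, hc₁, hz₁⟩ := e1
    obtain ⟨a₂, ha₂, hc₂, hz₂⟩ := e2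
    obtain ⟨a₃, ha₃, hc₃, hz₃⟩ := e3
    refine ⟨χ, a₁, a₂, a₃, hz₁, hz₂, hz₃, ?_, ?_, ?_, hc₁, hc₂, hc₃,
      (lift_conn s1 l12).2 a₁ a₂ ha₁ ha₂ hc₁ hc₂, (lift_conn s1 l13).2 a₁ a₃ ha₁ ha₃ hc₁ hc₃⟩
    · rw [ha₁.sum, s1]
    · rw [ha₂.sum, s2]
    · rw [ha₃.sum, s3]

end Pool.Agent.Lib.MP_153b2f_an
end

section

/-!
# The transformation groupoid of an action of a discrete group on a compact Hausdorff space
-/

namespace Pool.Agent.Lib.MP_153b2f_an

open Set Topology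

section

variable (Γ Ω : Type) [Group Γ] [TopologicalSpace Γ] [DiscreteTopology Γ] [TopologicalSpace Ω]
  [CompactSpace Ω] [T2Space Ω] [MulAction Γ Ω] [ContinuousConstSMul Γ Ω]

omit [CompactSpace Ω] [T2Space Ω] in
theorem continuous_smul_prod : Continuous (fun p : Γ × Ω => p.1 • p.2) := by
  rw [continuous_iff_continuousAt]
  rintro ⟨g, x⟩
  have hU : ({g} ×ˢ (univ : Set Ω)) ∈ 𝓝 (g, x) :=
    (IsOpen.prod (isOpen_discrete _) isOpen_univ).mem_nhds ⟨rfl, mem_univ _⟩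
  have h1 : ContinuousAt (fun p : Γ × Ω => g • p.2) (g, x) :=
    ((continuous_const_smul g).comp continuous_snd).continuousAt
  refine h1.congr ?_
  filter_upwards [hU] with p hp
  have : p.1 = g := hp.1
  rw [this]

/-- source as an open partial homeomorphism near arrows with group part `g` -/
def sourceChart (g : Γ) : OpenPartialHomeomorph (Γ × Ω) (Γ × Ω) where
  toFun p := (1, p.2)
  invFun p := (g, p.2)
  source := {g} ×ˢ univ
  target := {1} ×ˢ univ
  map_source' := by rintro ⟨a, b⟩ h; exact ⟨rfl, mem_univ _⟩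
  map_target' := by rintro ⟨a, b⟩ h; exact ⟨rfl, mem_univ _⟩
  left_inv' := by
    rintro ⟨a, b⟩ h
    have : a = g := h.1
    rw [this]
  right_inv' := by
    rintro ⟨a, b⟩ h
    have : a = 1 := h.1
    rw [this]
  open_source := IsOpen.prod (isOpen_discrete _) isOpen_univ
  open_target := IsOpen.prod (isOpen_discrete _) isOpen_univ
  continuousOn_toFun := (by fun_prop : Continuous (fun p : Γ × Ω => ((1 : Γ), p.2))).continuousOn
  continuousOn_invFun := (by fun_prop : Continuous (fun p : Γ × Ω => (g, p.2))).continuousOn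

/-- range as an open partial homeomorphism near arrows with group part `g` -/
def rangeChart (g : Γ) : OpenPartialHomeomorph (Γ × Ω) (Γ × Ω) where
  toFun p := (1, g • p.2)
  invFun p := (g, g⁻¹ • p.2)
  source := {g} ×ˢ univ
  target := {1} ×ˢ univ
  map_source' := by rintro ⟨a, b⟩ h; exact ⟨rfl, mem_univ _⟩
  map_target' := by rintro ⟨a, b⟩ h; exact ⟨rfl, mem_univ _⟩
  left_inv' := by
    rintro ⟨a, b⟩ h
    have : a = g := h.1
    simp [this]
  right_inv' := by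
    rintro ⟨a, b⟩ h
    have : a = 1 := h.1
    simp [this]
  open_source := IsOpen.prod (isOpen_discrete _) isOpen_univ
  open_target := IsOpen.prod (isOpen_discrete _) isOpen_univ
  continuousOn_toFun := by
    have : Continuous (fun p : Γ × Ω => ((1 : Γ), g • p.2)) :=
      continuous_const.prodMk ((continuous_const_smul g).comp continuous_snd)
    exact this.continuousOn
  continuousOn_invFun := by
    have : Continuous (fun p : Γ × Ω => (g, g⁻¹ • p.2)) :=
      continuous_const.prodMk ((continuous_const_smul g⁻¹).comp continuous_snd)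
    exact this.continuousOn

/-- The transformation groupoid: arrows `(g, x)` from `x` to `g • x`. -/
def actionGroupoid : EtaleGroupoid (Γ × Ω) where
  s p := (1, p.2)
  r p := (1, p.1 • p.2)
  mul p q := (p.1 * q.1, q.2)
  inv p := (p.1⁻¹, p.1 • p.2)
  s_s _ := rfl
  r_s p := by simp
  s_r p := by simp
  r_r p := by simp
  s_mul p q h := rfl
  r_mul p q h := by
    have h2 : p.2 = q.1 • q.2 := congrArg Prod.snd h
    simp [h2, mul_smul]
  mul_assoc p q k h h' := by simp [_root_.mul_assoc]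
  mul_source p := by simp
  range_mul p := by simp
  s_inv p := rfl
  r_inv p := by simp
  inv_mul p := by simp
  mul_inv p := by simp
  continuousOn_mul := by
    have : Continuous (fun p : (Γ × Ω) × (Γ × Ω) => (p.1.1 * p.2.1, p.2.2)) := by
      refine Continuous.prodMk ?_ (continuous_snd.comp continuous_snd)
      exact (continuous_of_discreteTopology (f := fun q : Γ × Γ => q.1 * q.2)).comp
        ((continuous_fst.comp continuous_fst).prodMk (continuous_fst.comp continuous_snd))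
    exact this.continuousOn
  continuous_inv := by
    refine Continuous.prodMk ?_ (continuous_smul_prod Γ Ω)
    exact (continuous_of_discreteTopology (f := fun q : Γ => q⁻¹)).comp continuous_fst
  isLocalHomeomorph_s := IsLocalHomeomorph.mk _ fun p =>
    ⟨sourceChart Γ Ω p.1, ⟨rfl, mem_univ _⟩, fun _ _ => rfl⟩
  isLocalHomeomorph_r := IsLocalHomeomorph.mk _ fun p =>
    ⟨rangeChart Γ Ω p.1, ⟨rfl, mem_univ _⟩, fun q hq => by
      have : q.1 = p.1 := hq.1
      show ((1 : Γ), q.1 • q.2) = (1, p.1 • q.2)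
      rw [this]⟩

theorem units_eq : (actionGroupoid Γ Ω).units = {1} ×ˢ (univ : Set Ω) := by
  ext ⟨g, x⟩
  constructor
  · rintro ⟨p, hp⟩
    exact ⟨(congrArg Prod.fst hp).symm, mem_univ _⟩
  · rintro ⟨h, -⟩
    refine ⟨(1, x), ?_⟩
    have : g = 1 := h
    rw [this]
    rfl

theorem isCompact_units : IsCompact (actionGroupoid Γ Ω).units := by
  rw [units_eq]
  exact isCompact_singleton.prod isCompact_univ

end

end Pool.Agent.Lib.MP_153b2f_an
end

section

/-!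
# An upper bound for the dynamic asymptotic dimension
-/

namespace Pool.Agent.Lib.MP_153b2f_an

open Set Topology Relation

section general

variable {G : Type} [TopologicalSpace G] [LocallyCompactSpace G] [T2Space G]
  (𝒢 : EtaleGroupoid G)

theorem EtaleGroupoid.generated_subset {S H : Set G} (hH : 𝒢.IsSubgroupoid H) (hS : S ⊆ H) :
    𝒢.generated S ⊆ H := fun _ hg => mem_sInter.1 hg H ⟨hH, hS⟩

theorem EtaleGroupoid.subset_generated (S : Set G) : S ⊆ 𝒢.generated S :=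
  fun _ hg => mem_sInter.2 fun _ hH => hH.2 hg

theorem EtaleGroupoid.generated_isSubgroupoid (S : Set G) :
    𝒢.IsSubgroupoid (𝒢.generated S) := by
  constructor
  · intro g hg h hh hgh
    refine mem_sInter.2 fun H hH => ?_
    exact hH.1.1 g (mem_sInter.1 hg H hH) h (mem_sInter.1 hh H hH) hgh
  · intro g hg
    refine mem_sInter.2 fun H hH => ?_
    exact hH.1.2 g (mem_sInter.1 hg H hH)

end general

section

variable {Γ : Type} [Group Γ]

/-- One step: left multiplication by an element of `F` which preserves the colour `c`. -/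
def Stp {α : Type} (F : Set Γ) (c : Γ → α) (u v : Γ) : Prop := ∃ k ∈ F, v = k * u ∧ c v = c u

/-- being connected by a path of steps -/
def Conn {α : Type} (F : Set Γ) (c : Γ → α) (u v : Γ) : Prop := ReflTransGen (Stp F c) u v

theorem Conn.refl' {α : Type} {F : Set Γ} {c : Γ → α} (u : Γ) : Conn F c u u := ReflTransGen.refl

theorem Conn.trans' {α : Type} {F : Set Γ} {c : Γ → α} {u v w : Γ} (h : Conn F c u v)
    (h' : Conn F c v w) : Conn F c u w := ReflTransGen.trans h h'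

theorem Stp.symm' {α : Type} {F : Set Γ} (hF : ∀ k ∈ F, k⁻¹ ∈ F) {c : Γ → α} {u v : Γ}
    (h : Stp F c u v) : Stp F c v u := by
  obtain ⟨k, hk, h1, h2⟩ := h
  exact ⟨k⁻¹, hF k hk, by rw [h1]; group, h2.symm⟩

theorem Conn.symm' {α : Type} {F : Set Γ} (hF : ∀ k ∈ F, k⁻¹ ∈ F) {c : Γ → α} {u v : Γ}
    (h : Conn F c u v) : Conn F c v u := by
  induction h with
  | refl => exact ReflTransGen.refl
  | tail _ h2 ih => exact ReflTransGen.head (Stp.symm' hF h2) ih

theorem Conn.mul_right {α : Type} {F : Set Γ} {c : Γ → α} {m : Γ} (hc : ∀ g, c (g * m) = c g)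
    {u v : Γ} (h : Conn F c u v) : Conn F c (u * m) (v * m) := by
  induction h with
  | refl => exact ReflTransGen.refl
  | tail _ h2 ih =>
    obtain ⟨k, hk, h3, h4⟩ := h2
    exact ReflTransGen.tail ih ⟨k, hk, by rw [h3, mul_assoc], by rw [hc, hc, h4]⟩

theorem Conn.color {α : Type} {F : Set Γ} {c : Γ → α} {u v : Γ} (h : Conn F c u v) :
    c v = c u := by
  induction h with
  | refl => rfl
  | tail _ h2 ih =>
    obtain ⟨k, hk, h3, h4⟩ := h2
    rw [h4, ih]

end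

section

variable {Γ : Type} [Group Γ] [TopologicalSpace Γ] [DiscreteTopology Γ]
  (Lam : ℕ → Subgroup Γ) [∀ n, Finite (Γ ⧸ Lam n)]

/-- the compact space `∏ₙ Γ/Λₙ` -/
abbrev Om : Type := ∀ n, Γ ⧸ Lam n

instance instDT (n : ℕ) : DiscreteTopology (Γ ⧸ Lam n) :=
  QuotientGroup.discreteTopology (isOpen_discrete _)

instance instCompact : CompactSpace (Om Lam) := by
  have : ∀ n, CompactSpace (Γ ⧸ Lam n) := fun n => Finite.compactSpace
  exact Pi.compactSpace

instance instCCS (n : ℕ) : ContinuousConstSMul Γ (Γ ⧸ Lam n) :=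
  ⟨fun _ => continuous_of_discreteTopology⟩

/-- the groupoid of the action of `Γ` on `∏ₙ Γ/Λₙ` -/
def OmG : EtaleGroupoid (Γ × Om Lam) := actionGroupoid Γ (Om Lam)

theorem dad_le (d : ℕ)
    (h1 : ∀ F : Set Γ, F.Finite → (∀ k ∈ F, k⁻¹ ∈ F) → ∃ n : ℕ, ∃ c : Γ → Fin (d + 1),
      (∀ g, ∀ l ∈ Lam n, c (g * l) = c g) ∧
      ∃ E : Set Γ, E.Finite ∧ ∀ u v, Conn F c u v → v * u⁻¹ ∈ E) :
    (OmG Lam).DADLE d := by
  intro K hK hKc
  -- the finitely many group elements occurring in `K`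
  have hfin : (Prod.fst '' (closure K)).Finite := (hKc.image continuous_fst).finite_of_discrete
  set F₀ : Set Γ := Prod.fst '' (closure K) with hF₀
  set F : Set Γ := F₀ ∪ (fun g => g⁻¹) '' F₀ with hF
  have hFfin : F.Finite := hfin.union (hfin.image _)
  have hFsymm : ∀ k ∈ F, k⁻¹ ∈ F := by
    rintro k (hk | ⟨k', hk', rfl⟩)
    · exact Or.inr ⟨k, hk, rfl⟩
    · left; simpa using hk'
  obtain ⟨n, c, hc, E, hE, hconn⟩ := h1 F hFfin hFsymm
  let chat : Γ ⧸ Lam n → Fin (d + 1) := fun q => c (Quotient.out q)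
  have chat_mk : ∀ g : Γ, chat (QuotientGroup.mk g) = c g := by
    intro g
    obtain ⟨l, hl⟩ := QuotientGroup.mk_out_eq_mul (Lam n) g
    show c (Quotient.out (QuotientGroup.mk g : Γ ⧸ Lam n)) = c g
    rw [hl, hc g _ l.2]
  have hUopen : ∀ i, IsOpen {p : Γ × Om Lam | p.1 = 1 ∧ chat (p.2 n) = i} := by
    intro i
    have e1 : IsOpen {p : Γ × Om Lam | p.1 = 1} :=
      (isOpen_discrete ({1} : Set Γ)).preimage continuous_fst
    have hcont : Continuous (fun p : Γ × Om Lam => p.2 n) :=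
      (continuous_apply n).comp continuous_snd
    have e2 : IsOpen {p : Γ × Om Lam | chat (p.2 n) = i} :=
      (isOpen_discrete {q : Γ ⧸ Lam n | chat q = i}).preimage hcont
    exact e1.inter e2
  refine ⟨fun i => {p : Γ × Om Lam | p.1 = 1 ∧ chat (p.2 n) = i}, fun i => ⟨hUopen i, ?_⟩, ?_, ?_⟩
  · rintro ⟨g, x⟩ ⟨h, -⟩
    exact ⟨(1, x), by simp only at h; rw [h]; rfl⟩
  · rintro _ (⟨p, -, rfl⟩ | ⟨p, -, rfl⟩)
    · exact mem_iUnion.2 ⟨chat (p.2 n), rfl, rfl⟩
    · exact mem_iUnion.2 ⟨chat ((p.1 • p.2) n), rfl, rfl⟩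
  · intro i
    -- the subgroupoid of arrows `(g, x)` with `h` connected to `g h` whenever `x n = h Λₙ`
    let T : Set (Γ × Om Lam) := {p | ∀ h : Γ, p.2 n = QuotientGroup.mk h → Conn F c h (p.1 * h)}
    have hTsub : (OmG Lam).IsSubgroupoid T := by
      constructor
      · rintro ⟨g', x'⟩ hg' ⟨g, x⟩ hg hcomp
        have hx' : x' = g • x := congrArg Prod.snd hcomp
        subst hx'
        intro h hh
        have e1 := hg h hh
        have e2 := hg' (g * h) (by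
          show g • x n = _
          rw [show x n = QuotientGroup.mk h from hh]
          rfl)
        have e3 := e1.trans' e2
        show Conn F c h (g' * g * h)
        rw [mul_assoc]
        exact e3
      · rintro ⟨g, x⟩ hg h hh
        have hx : x n = QuotientGroup.mk (g⁻¹ * h) := by
          have : g • x n = QuotientGroup.mk h := hh
          calc x n = g⁻¹ • (g • x n) := by simp
            _ = g⁻¹ • (QuotientGroup.mk h : Γ ⧸ Lam n) := by rw [this]
            _ = _ := rfl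
        have e1 := hg _ hx
        simp only [mul_inv_cancel_left] at e1
        exact e1.symm' hFsymm
    have hTE : T ⊆ E ×ˢ univ := by
      rintro ⟨g, x⟩ hg
      obtain ⟨h, hh⟩ := QuotientGroup.mk_surjective (x n)
      have := hconn _ _ (hg h hh.symm)
      simp only [mul_inv_cancel_right] at this
      exact ⟨this, mem_univ _⟩
    have hKT : (OmG Lam).res K {p : Γ × Om Lam | p.1 = 1 ∧ chat (p.2 n) = i} ⊆ T := by
      rintro ⟨k, x⟩ ⟨hk, ⟨-, h2⟩, ⟨-, h3⟩⟩ h hh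
      have h2' : chat (x n) = i := h2
      have h3' : chat (k • x n) = i := h3
      have hh' : x n = QuotientGroup.mk h := hh
      rw [hh', chat_mk] at h2'
      rw [hh', show k • (QuotientGroup.mk h : Γ ⧸ Lam n) = QuotientGroup.mk (k * h) from rfl,
        chat_mk] at h3'
      exact ReflTransGen.single ⟨k, Or.inl ⟨(k, x), subset_closure hk, rfl⟩, rfl, by rw [h3', h2']⟩
    have hsub := ((OmG Lam).generated_subset hTsub hKT).trans hTE
    have hcl : IsClosed (E ×ˢ (univ : Set (Om Lam))) := (isClosed_discrete E).prod isClosed_univ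
    have hcpt : IsCompact (E ×ˢ (univ : Set (Om Lam))) := hE.isCompact.prod isCompact_univ
    exact hcpt.of_isClosed_subset isClosed_closure (closure_minimal hsub hcl)

end

end Pool.Agent.Lib.MP_153b2f_an
end

section

/-!
# A criterion for the failure of finite dynamical complexity
-/

namespace Pool.Agent.Lib.MP_153b2f_an

open Set Topology Relation

section

variable {Γ : Type} [Group Γ] [TopologicalSpace Γ] [DiscreteTopology Γ]
  (Lam : ℕ → Subgroup Γ) [∀ n, Finite (Γ ⧸ Lam n)]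

/-- points of `∏ₙ Γ/Λₙ` whose first coordinates are trivial cosets -/
def Y (n : ℕ) : Set (Om Lam) := {x | ∀ j ≤ n, x j = QuotientGroup.mk 1}

omit [TopologicalSpace Γ] [DiscreteTopology Γ] [∀ n, Finite (Γ ⧸ Lam n)] in
theorem Y_anti {n m : ℕ} (h : n ≤ m) : Y Lam m ⊆ Y Lam n := fun _ hx j hj => hx j (hj.trans h)

/-- the conjugate by `g` of the transformation groupoid of `Λₙ` acting on `Y n`. -/
def Sn (n : ℕ) (g : Γ) : Set (Γ × Om Lam) :=
  {p | ∃ l ∈ Lam n, ∃ y ∈ Y Lam n, p = (g * l * g⁻¹, g • y)}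

omit [TopologicalSpace Γ] [DiscreteTopology Γ] [∀ n, Finite (Γ ⧸ Lam n)] in
theorem smul_mem_Y (hanti : Antitone Lam) {n : ℕ} {l : Γ} (hl : l ∈ Lam n) {y : Om Lam}
    (hy : y ∈ Y Lam n) : l • y ∈ Y Lam n := by
  intro j hj
  show l • y j = _
  rw [hy j hj, show l • (QuotientGroup.mk 1 : Γ ⧸ Lam j) = QuotientGroup.mk (l * 1) from rfl,
    QuotientGroup.eq]
  simpa using (Lam j).inv_mem (hanti hj hl)

omit [DiscreteTopology Γ] [∀ n, Finite (Γ ⧸ Lam n)] in
theorem cyl_of_open {V : Set (Om Lam)} (hV : IsOpen V) {y : Om Lam} (hy : y ∈ V) :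
    ∃ m : ℕ, {x : Om Lam | ∀ j ≤ m, x j = y j} ⊆ V := by
  obtain ⟨I, u, hu, hsub⟩ := isOpen_pi_iff.1 hV y hy
  refine ⟨I.sup id, fun x hx => hsub ?_⟩
  intro a ha
  rw [hx a (Finset.le_sup (f := id) ha)]
  exact (hu a ha).2

omit [∀ n, Finite (Γ ⧸ Lam n)] in
theorem isOpen_cyl (y : Om Lam) (m : ℕ) : IsOpen {x : Om Lam | ∀ j ≤ m, x j = y j} := by
  have : {x : Om Lam | ∀ j ≤ m, x j = y j} = ⋂ j ∈ Finset.range (m + 1), {x | x j = y j} := by
    ext x
    simp
  rw [this]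
  refine isOpen_biInter_finset fun j _ => ?_
  have hc : Continuous (fun x : Om Lam => x j) := continuous_apply j
  exact (isOpen_discrete ({y j} : Set (Γ ⧸ Lam j))).preimage hc

omit [∀ n, Finite (Γ ⧸ Lam n)] in
theorem isClosed_Y (n : ℕ) : IsClosed (Y Lam n) := by
  have : Y Lam n = ⋂ j, ⋂ (_ : j ≤ n), {x : Om Lam | x j = QuotientGroup.mk 1} := by
    ext x
    simp [Y]
  rw [this]
  refine isClosed_iInter fun j => isClosed_iInter fun _ => ?_
  have hc : Continuous (fun x : Om Lam => x j) := continuous_apply j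
  exact (isClosed_discrete ({QuotientGroup.mk 1} : Set (Γ ⧸ Lam j))).preimage hc

theorem lebesgue (hanti : Antitone Lam) {n : ℕ} {V₀ V₁ : Set (Om Lam)} (h₀ : IsOpen V₀)
    (h₁ : IsOpen V₁) (hY : Y Lam n ⊆ V₀ ∪ V₁) :
    ∃ m, n < m ∧ ∀ l ∈ Lam n, (∀ y ∈ Y Lam m, l • y ∈ V₀) ∨ (∀ y ∈ Y Lam m, l • y ∈ V₁) := by
  have hex : ∀ y ∈ Y Lam n, ∃ m : ℕ, {x : Om Lam | ∀ j ≤ m, x j = y j} ⊆ V₀ ∨
      {x : Om Lam | ∀ j ≤ m, x j = y j} ⊆ V₁ := by
    intro y hy
    rcases hY hy with h | h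
    · obtain ⟨m, hm⟩ := cyl_of_open Lam h₀ h
      exact ⟨m, Or.inl hm⟩
    · obtain ⟨m, hm⟩ := cyl_of_open Lam h₁ h
      exact ⟨m, Or.inr hm⟩
  choose! M hM using hex
  have hcpt : IsCompact (Y Lam n) := (isClosed_Y Lam n).isCompact
  obtain ⟨t, ht, hcov⟩ := hcpt.elim_nhds_subcover (fun y => {x : Om Lam | ∀ j ≤ M y, x j = y j})
    (fun y _ => (isOpen_cyl Lam y (M y)).mem_nhds (fun _ _ => rfl))
  refine ⟨max (n + 1) (t.sup M), by omega, fun l hl => ?_⟩
  have he : (fun j => QuotientGroup.mk 1 : Om Lam) ∈ Y Lam n := fun _ _ => rfl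
  have hle := smul_mem_Y Lam hanti hl he
  obtain ⟨y, hyt, hy⟩ := mem_iUnion₂.1 (hcov hle)
  have hsub : ∀ y' ∈ Y Lam (max (n + 1) (t.sup M)), l • y' ∈ {x : Om Lam | ∀ j ≤ M y, x j = y j} := by
    intro y' hy' j hj
    have hMy : M y ≤ t.sup M := Finset.le_sup hyt
    have h1 : y' j = QuotientGroup.mk 1 := hy' j (by omega)
    rw [← hy j hj]
    show l • y' j = l • _
    rw [h1]
  rcases hM y (ht y hyt) with h | h
  · exact Or.inl fun y' hy' => h (hsub y' hy')
  · exact Or.inr fun y' hy' => h (hsub y' hy')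

/-- the class of open subgroupoids containing no copy `Sn n g` -/
def D₀ : Set (Set (Γ × Om Lam)) :=
  {H | IsOpen H ∧ (OmG Lam).IsSubgroupoid H ∧ ∀ n g, ¬ Sn Lam n g ⊆ H}

theorem D₀_relCompact (hinf : ∀ n, (Lam n : Set Γ).Infinite) (H : Set (Γ × Om Lam))
    (ho : IsOpen H) (hs : (OmG Lam).IsSubgroupoid H) (hc : EtaleGroupoid.RelCompact H) :
    H ∈ D₀ Lam := by
  refine ⟨ho, hs, fun n g hsub => ?_⟩
  have hfin : (Prod.fst '' (closure H)).Finite := (hc.image continuous_fst).finite_of_discrete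
  have : (fun l => g * l * g⁻¹) '' (Lam n : Set Γ) ⊆ Prod.fst '' (closure H) := by
    rintro _ ⟨l, hl, rfl⟩
    refine ⟨(g * l * g⁻¹, g • (fun j => QuotientGroup.mk 1 : Om Lam)), subset_closure (hsub ?_), rfl⟩
    exact ⟨l, hl, _, fun _ _ => rfl, rfl⟩
  have hinj : Function.Injective (fun l : Γ => g * l * g⁻¹) := by
    intro a b hab
    simpa using hab
  exact ((hinf n).image hinj.injOn) (hfin.subset this)

theorem D₀_decomposable (hanti : Antitone Lam)
    (h2 : ∀ n, ∃ F : Set Γ, F.Finite ∧ F ⊆ Lam n ∧ (1 : Γ) ∈ F ∧ ∀ m, n < m →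
      ∀ c : Γ → Bool, (∀ g, ∀ l ∈ Lam m, c (g * l) = c g) →
      ∃ γ ∈ Lam n, ∀ μ ∈ Lam m, Conn F c γ (γ * μ))
    (H : Set (Γ × Om Lam)) (ho : IsOpen H) (hs : (OmG Lam).IsSubgroupoid H)
    (hdec : (OmG Lam).WeaklyDecomposable H (D₀ Lam)) :
    H ∈ D₀ Lam := by
  refine ⟨ho, hs, fun n g hsub => ?_⟩
  obtain ⟨F, hFfin, hFL, h1F, hF⟩ := h2 n
  -- the compact part of `Sn n g` with group elements in `g F g⁻¹`
  let C : Set (Γ × Om Lam) := ((fun l => g * l * g⁻¹) '' F) ×ˢ ((fun y => g • y) '' (Y Lam n))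
  have hC : IsCompact C := by
    refine (hFfin.image _).isCompact.prod ?_
    exact (isClosed_Y Lam n).isCompact.image (continuous_const_smul g)
  have hCH : C ⊆ H := by
    rintro ⟨a, b⟩ ⟨⟨l, hl, hla⟩, ⟨y, hy, hyb⟩⟩
    refine hsub ⟨l, hFL hl, y, hy, ?_⟩
    simp only at hla hyb
    rw [hla, hyb]
  obtain ⟨K, hKo, hCK, hKH, hKc⟩ := exists_open_between_and_isCompact_closure hC ho hCH
  obtain ⟨U₀, U₁, hU₀, hU₁, hU, ⟨C₀, hC₀, hgen₀⟩, ⟨C₁, hC₁, hgen₁⟩⟩ :=
    hdec K (subset_closure.trans hKH) hKo hKc hKH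
  have hcontV : Continuous (fun y : Om Lam => ((1 : Γ), g • y)) :=
    continuous_const.prodMk (continuous_const_smul g)
  obtain ⟨m, hnm, hm⟩ := lebesgue Lam hanti (hU₀.preimage hcontV) (hU₁.preimage hcontV)
    (n := n) (by
      intro y hy
      have h1 : ((1 : Γ), g • y) ∈ H := hCH ⟨⟨1, h1F, by simp⟩, ⟨y, hy, rfl⟩⟩
      have h2 : ((1 : Γ), g • y) ∈ (OmG Lam).units := ⟨(1, g • y), rfl⟩
      have h3 : ((1 : Γ), g • y) ∈ U₀ ∪ U₁ := by rw [← hU]; exact ⟨h1, h2⟩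
      exact h3)
  classical
  -- colour of `h`: whether `h Y m` is contained in `V₁`
  let c : Γ → Bool := fun h => decide (∀ y ∈ Y Lam m, ((1 : Γ), g • h • y) ∈ U₁)
  have hcinv : ∀ h, ∀ l ∈ Lam m, c (h * l) = c h := by
    intro h l hl
    have : (∀ y ∈ Y Lam m, ((1 : Γ), g • (h * l) • y) ∈ U₁) ↔
        (∀ y ∈ Y Lam m, ((1 : Γ), g • h • y) ∈ U₁) := by
      constructor
      · intro hh y hy
        have := hh (l⁻¹ • y) (smul_mem_Y Lam hanti ((Lam m).inv_mem hl) hy)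
        rwa [mul_smul, smul_inv_smul] at this
      · intro hh y hy
        rw [mul_smul]
        exact hh (l • y) (smul_mem_Y Lam hanti hl hy)
    simp only [c, this]
  obtain ⟨γ, hγ, hconn⟩ := hF m hnm c hcinv
  -- a general statement for either colour
  have key : ∀ (U : Set (Γ × Om Lam)) (D : Set (Γ × Om Lam)), D ∈ D₀ Lam →
      (OmG Lam).generated ((OmG Lam).res K U) ⊆ D →
      (∀ h, h ∈ Lam n → c h = c γ → ∀ y ∈ Y Lam m, ((1 : Γ), g • h • y) ∈ U) → False := by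
    intro U D hD hgen hcol
    refine hD.2.2 m (g * γ) ?_
    rintro p ⟨μ, hμ, ω, hω, rfl⟩
    refine hgen ?_
    have hωn : ω ∈ Y Lam n := Y_anti Lam hnm.le hω
    have hgoal : ∀ h, Conn F c γ h → h ∈ Lam n ∧
        ((g * h * γ⁻¹ * g⁻¹, g • γ • ω) : Γ × Om Lam) ∈
          (OmG Lam).generated ((OmG Lam).res K U) := by
      intro h hh
      induction hh with
      | refl =>
        refine ⟨hγ, (OmG Lam).subset_generated _ ?_⟩
        have e : ((g * γ * γ⁻¹ * g⁻¹, g • γ • ω) : Γ × Om Lam) = (1, g • γ • ω) := by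
          rw [mul_inv_cancel_right, mul_inv_cancel]
        rw [e]
        refine ⟨hCK ⟨⟨1, h1F, by simp⟩, ⟨γ • ω, smul_mem_Y Lam hanti hγ hωn, rfl⟩⟩, ?_, ?_⟩
        · exact hcol γ hγ rfl ω hω
        · show ((1 : Γ), (1 : Γ) • g • γ • ω) ∈ U
          rw [one_smul]
          exact hcol γ hγ rfl ω hω
      | @tail h₁ h₂ hh₁ hstep ih =>
        obtain ⟨k, hk, hk1, hk2⟩ := hstep
        obtain ⟨ihL, ihG⟩ := ih
        have hkL : k ∈ Lam n := hFL hk
        have hh₂ : h₂ ∈ Lam n := by rw [hk1]; exact (Lam n).mul_mem hkL ihL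
        have hc1 : c h₁ = c γ := Conn.color hh₁
        have hc2 : c h₂ = c γ := by rw [hk2, hc1]
        refine ⟨hh₂, ?_⟩
        -- the arrow `(g k g⁻¹, g h₁ ω)`
        have harr : ((g * k * g⁻¹, g • h₁ • ω) : Γ × Om Lam) ∈ (OmG Lam).res K U := by
          refine ⟨hCK ⟨⟨k, hk, rfl⟩, ⟨h₁ • ω, smul_mem_Y Lam hanti ihL hωn, rfl⟩⟩, ?_, ?_⟩
          · exact hcol h₁ ihL hc1 ω hω
          · show ((1 : Γ), (g * k * g⁻¹) • g • h₁ • ω) ∈ U
            have e : (g * k * g⁻¹) • g • h₁ • ω = g • h₂ • ω := by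
              rw [hk1]
              simp only [mul_smul, inv_smul_smul]
            rw [e]
            exact hcol h₂ hh₂ hc2 ω hω
        have hmul := ((OmG Lam).generated_isSubgroupoid ((OmG Lam).res K U)).1 _
          ((OmG Lam).subset_generated _ harr) _ ihG (by
            show ((1 : Γ), g • h₁ • ω) = (1, (g * h₁ * γ⁻¹ * g⁻¹) • g • γ • ω)
            simp only [mul_smul, inv_smul_smul])
        have e : ((g * h₂ * γ⁻¹ * g⁻¹, g • γ • ω) : Γ × Om Lam) =
            (OmG Lam).mul (g * k * g⁻¹, g • h₁ • ω) (g * h₁ * γ⁻¹ * g⁻¹, g • γ • ω) := by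
          show _ = ((g * k * g⁻¹) * (g * h₁ * γ⁻¹ * g⁻¹), g • γ • ω)
          rw [hk1]
          congr 1
          group
        rw [e]
        exact hmul
    have hfinal := (hgoal (γ * μ) (hconn μ hμ)).2
    have e : ((g * γ * μ * (g * γ)⁻¹, (g * γ) • ω) : Γ × Om Lam) =
        (g * (γ * μ) * γ⁻¹ * g⁻¹, g • γ • ω) := by
      rw [mul_smul]
      congr 1
      group
    rw [e]
    exact hfinal
  cases hcg : c γ with
  | true =>
    refine key U₁ C₁ hC₁ hgen₁ (fun h _ hh y hy => ?_)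
    rw [hcg] at hh
    exact (of_decide_eq_true hh) y hy
  | false =>
    refine key U₀ C₀ hC₀ hgen₀ (fun h hhL hh y hy => ?_)
    rw [hcg] at hh
    have hnot := of_decide_eq_false hh
    rcases hm h hhL with h' | h'
    · exact h' y hy
    · exact absurd h' hnot

theorem not_fdc (hanti : Antitone Lam) (hinf : ∀ n, (Lam n : Set Γ).Infinite)
    (h2 : ∀ n, ∃ F : Set Γ, F.Finite ∧ F ⊆ Lam n ∧ (1 : Γ) ∈ F ∧ ∀ m, n < m →
      ∀ c : Γ → Bool, (∀ g, ∀ l ∈ Lam m, c (g * l) = c g) →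
      ∃ γ ∈ Lam n, ∀ μ ∈ Lam m, Conn F c γ (γ * μ)) :
    ¬ (OmG Lam).HasFDC ∧ ¬ (OmG Lam).HasWeakFDC := by
  have huniv : (univ : Set (Γ × Om Lam)) ∉ D₀ Lam := fun h => h.2.2 0 1 (subset_univ _)
  constructor
  · intro h
    refine huniv (mem_sInter.1 h (D₀ Lam) ⟨fun H hH => ⟨hH.1, hH.2.1⟩,
      D₀_relCompact Lam hinf, fun H ho hs hdec => D₀_decomposable Lam hanti h2 H ho hs ?_⟩)
    exact fun K hKH hKo hKc _ => hdec K hKH hKo hKc
  · intro h
    exact huniv (mem_sInter.1 h (D₀ Lam) ⟨fun H hH => ⟨hH.1, hH.2.1⟩,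
      D₀_relCompact Lam hinf, fun H ho hs hdec => D₀_decomposable Lam hanti h2 H ho hs hdec⟩)

end

end Pool.Agent.Lib.MP_153b2f_an
end

section

/-!
# The wallpaper group p4m and its subgroups
-/

namespace Pool.Agent.Lib.MP_153b2f_an

open Set Relation

/-- the affine map `(x, y) ↦ (e x + v, f y + w)` or `(x, y) ↦ (e y + v, f x + w)` -/
def mkFun (sw : Bool) (e f : ℤˣ) (v w : ℤ) (p : ℤ × ℤ) : ℤ × ℤ :=
  if sw then ((e : ℤ) * p.2 + v, (f : ℤ) * p.1 + w) else ((e : ℤ) * p.1 + v, (f : ℤ) * p.2 + w)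

theorem units_sq (e : ℤˣ) : (e : ℤ) * (e : ℤ) = 1 := by
  rcases Int.units_eq_one_or e with rfl | rfl <;> rfl

/-- the same map as a permutation -/
def mkPerm (sw : Bool) (e f : ℤˣ) (v w : ℤ) : Equiv.Perm (ℤ × ℤ) where
  toFun := mkFun sw e f v w
  invFun := if sw then mkFun true f e (-(f * w)) (-(e * v))
    else mkFun false e f (-(e * v)) (-(f * w))
  left_inv := by
    rintro ⟨x, y⟩
    have he := units_sq e
    have hf := units_sq f
    cases sw <;> simp only [mkFun, if_true, if_false, Bool.false_eq_true] <;> ext <;>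
      simp only <;> first | linear_combination x * he | linear_combination y * hf |
      linear_combination x * hf | linear_combination y * he
  right_inv := by
    rintro ⟨x, y⟩
    have he := units_sq e
    have hf := units_sq f
    cases sw <;> simp only [mkFun, if_true, if_false, Bool.false_eq_true] <;> ext <;>
      simp only <;> first | linear_combination (x - v) * he | linear_combination (y - w) * hf

/-- The group of all maps `(x, y) ↦ (±x + v, ±y + w)`, `(x, y) ↦ (±y + v, ±x + w)` of `ℤ²`. -/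
def P4sub : Subgroup (Equiv.Perm (ℤ × ℤ)) where
  carrier := {g | ∃ sw e f v w, g = mkPerm sw e f v w}
  mul_mem' := by
    rintro _ _ ⟨sw, e, f, v, w, rfl⟩ ⟨sw', e', f', v', w', rfl⟩
    cases sw <;> cases sw'
    · refine ⟨false, e * e', f * f', e * v' + v, f * w' + w, ?_⟩
      ext p <;> simp [mkPerm, mkFun] <;> ring
    · refine ⟨true, e * e', f * f', e * v' + v, f * w' + w, ?_⟩
      ext p <;> simp [mkPerm, mkFun] <;> ring
    · refine ⟨true, e * f', f * e', e * w' + v, f * v' + w, ?_⟩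
      ext p <;> simp [mkPerm, mkFun] <;> ring
    · refine ⟨false, e * f', f * e', e * w' + v, f * v' + w, ?_⟩
      ext p <;> simp [mkPerm, mkFun] <;> ring
  one_mem' := ⟨false, 1, 1, 0, 0, by ext p <;> simp [mkPerm, mkFun]⟩
  inv_mem' := by
    rintro _ ⟨sw, e, f, v, w, rfl⟩
    cases sw
    · refine ⟨false, e, f, -(e * v), -(f * w), ?_⟩
      ext p <;> rfl
    · refine ⟨true, f, e, -(f * w), -(e * v), ?_⟩
      ext p <;> rfl

/-- the wallpaper group p4m -/
abbrev P4 : Type := P4sub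

instance instTopP4 : TopologicalSpace P4 := ⊥
instance instDiscP4 : DiscreteTopology P4 := ⟨rfl⟩

/-- elements of `P4` -/
def mkE (sw : Bool) (e f : ℤˣ) (v w : ℤ) : P4 := ⟨mkPerm sw e f v w, sw, e, f, v, w, rfl⟩

theorem exists_mkE (g : P4) : ∃ sw e f v w, g = mkE sw e f v w := by
  obtain ⟨g, sw, e, f, v, w, rfl⟩ := g
  exact ⟨sw, e, f, v, w, rfl⟩

theorem mkE_apply (sw : Bool) (e f : ℤˣ) (v w : ℤ) (p : ℤ × ℤ) :
    (mkE sw e f v w).1 p = mkFun sw e f v w p := rfl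

theorem P4.ext' {g h : P4} (H : ∀ p, g.1 p = h.1 p) : g = h := Subtype.ext (Equiv.ext H)

theorem mul_app (g h : P4) (p : ℤ × ℤ) : (g * h).1 p = g.1 (h.1 p) := rfl

theorem inv_app_self (g : P4) (p : ℤ × ℤ) : (g⁻¹).1 (g.1 p) = p := by
  rw [← mul_app, inv_mul_cancel]; rfl

theorem app_inv_self (g : P4) (p : ℤ × ℤ) : g.1 ((g⁻¹).1 p) = p := by
  rw [← mul_app, mul_inv_cancel]; rfl

/-- both coordinates of `p - q` are at most `R` in absolute value -/
def Box (R : ℤ) (p q : ℤ × ℤ) : Prop := |p.1 - q.1| ≤ R ∧ |p.2 - q.2| ≤ R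

theorem box_map {R : ℤ} {p q : ℤ × ℤ} (g : P4) (h : Box R p q) : Box R (g.1 p) (g.1 q) := by
  obtain ⟨sw, e, f, v, w, rfl⟩ := exists_mkE g
  obtain ⟨h1, h2⟩ := h
  rw [abs_le] at h1 h2
  rw [mkE_apply, mkE_apply]
  unfold Box
  simp only [abs_le]
  rcases Int.units_eq_one_or e with rfl | rfl <;> rcases Int.units_eq_one_or f with rfl | rfl <;>
    cases sw <;> simp only [mkFun, if_true, if_false, Bool.false_eq_true, Units.val_one,
      Units.val_neg] <;> omega

theorem box_symm {R : ℤ} {p q : ℤ × ℤ} (h : Box R p q) : Box R q p := by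
  obtain ⟨h1, h2⟩ := h
  exact ⟨by rwa [abs_sub_comm], by rwa [abs_sub_comm]⟩

theorem finite_box (D : ℤ) : {g : P4 | Box D (g.1 (0, 0)) (0, 0)}.Finite := by
  have hfin : ((fun t : Bool × ℤˣ × ℤˣ × ℤ × ℤ => mkE t.1 t.2.1 t.2.2.1 t.2.2.2.1 t.2.2.2.2) ''
      (univ ×ˢ univ ×ˢ univ ×ˢ Icc (-D) D ×ˢ Icc (-D) D)).Finite :=
    (finite_univ.prod (finite_univ.prod (finite_univ.prod
      ((finite_Icc _ _).prod (finite_Icc _ _))))).image _
  refine hfin.subset ?_
  intro g hg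
  obtain ⟨sw, e, f, v, w, rfl⟩ := exists_mkE g
  refine ⟨(sw, e, f, v, w), ⟨mem_univ _, mem_univ _, mem_univ _, ?_, ?_⟩, rfl⟩
  · have h1 := hg.1
    rw [mkE_apply, abs_le] at h1
    cases sw <;> simp only [mkFun, if_true, if_false, Bool.false_eq_true, mul_zero, zero_add,
      sub_zero] at h1 <;> exact ⟨h1.1, h1.2⟩
  · have h1 := hg.2
    rw [mkE_apply, abs_le] at h1
    cases sw <;> simp only [mkFun, if_true, if_false, Bool.false_eq_true, mul_zero, zero_add,
      sub_zero] at h1 <;> exact ⟨h1.1, h1.2⟩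

theorem finite_box_inv (D : ℤ) : {g : P4 | Box D ((g⁻¹).1 (0, 0)) (0, 0)}.Finite := by
  have h := (finite_box D).image (fun g => g⁻¹)
  refine h.subset ?_
  intro g hg
  exact ⟨g⁻¹, hg, inv_inv g⟩

/-- the lattice `2ⁿ ℤ²` -/
def InL (n : ℕ) (p : ℤ × ℤ) : Prop := (2 : ℤ) ^ n ∣ p.1 ∧ (2 : ℤ) ^ n ∣ p.2

/-- the stabiliser of the lattice `2ⁿ ℤ²` -/
def Lam (n : ℕ) : Subgroup P4 where
  carrier := {g | ∀ p, InL n p ↔ InL n (g.1 p)}
  mul_mem' := by
    intro g h hg hh p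
    rw [mul_app, ← hg, ← hh]
  one_mem' := fun p => Iff.rfl
  inv_mem' := by
    intro g hg p
    have := hg ((g⁻¹).1 p)
    rw [app_inv_self] at this
    exact this.symm

theorem mem_Lam_iff (n : ℕ) (g : P4) : g ∈ Lam n ↔ InL n (g.1 (0, 0)) := by
  constructor
  · intro h
    exact (h (0, 0)).1 ⟨dvd_zero _, dvd_zero _⟩
  · intro h p
    obtain ⟨sw, e, f, v, w, rfl⟩ := exists_mkE g
    rw [mkE_apply] at h ⊢
    unfold InL at *
    rcases Int.units_eq_one_or e with rfl | rfl <;> rcases Int.units_eq_one_or f with rfl | rfl <;>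
      cases sw <;> simp only [mkFun, if_true, if_false, Bool.false_eq_true, Units.val_one,
      Units.val_neg, mul_zero, zero_add, one_mul, neg_mul] at h ⊢ <;>
      rw [dvd_add_left h.1, dvd_add_left h.2] <;> first | tauto | (simp only [dvd_neg] <;> tauto)

theorem mem_Lam_mkE (n : ℕ) (sw : Bool) (e f : ℤˣ) (v w : ℤ) :
    mkE sw e f v w ∈ Lam n ↔ (2 : ℤ) ^ n ∣ v ∧ (2 : ℤ) ^ n ∣ w := by
  rw [mem_Lam_iff, mkE_apply]
  cases sw <;> simp [mkFun, InL]

theorem Lam_anti : Antitone Lam := by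
  intro n m h g hg
  rw [mem_Lam_iff] at hg ⊢
  exact ⟨(pow_dvd_pow 2 h).trans hg.1, (pow_dvd_pow 2 h).trans hg.2⟩

theorem diff_InL (n : ℕ) (g : P4) {p q : ℤ × ℤ} (h : InL n (p - q)) :
    InL n (g.1 p - g.1 q) := by
  obtain ⟨sw, e, f, v, w, rfl⟩ := exists_mkE g
  rw [mkE_apply, mkE_apply]
  obtain ⟨h1, h2⟩ := h
  simp only [Prod.fst_sub, Prod.snd_sub] at h1 h2
  unfold InL
  cases sw <;> simp only [mkFun, if_true, if_false, Bool.false_eq_true, Prod.fst_sub,
    Prod.snd_sub, add_sub_add_right_eq_sub, ← mul_sub]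
  · exact ⟨h1.mul_left _, h2.mul_left _⟩
  · exact ⟨h2.mul_left _, h1.mul_left _⟩

instance finQuot (n : ℕ) : Finite (P4 ⧸ Lam n) := by
  have : NeZero (2 ^ n : ℕ) := ⟨by positivity⟩
  let φ : P4 → ZMod (2 ^ n) × ZMod (2 ^ n) := fun g => (((g.1 (0, 0)).1 : ZMod (2 ^ n)),
    ((g.1 (0, 0)).2 : ZMod (2 ^ n)))
  have hφ : ∀ g h : P4, φ g = φ h → g⁻¹ * h ∈ Lam n := by
    intro g h hgh
    rw [mem_Lam_iff, mul_app]
    have h1 : InL n (h.1 (0, 0) - g.1 (0, 0)) := by
      obtain ⟨e1, e2⟩ := Prod.ext_iff.1 hgh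
      simp only [φ] at e1 e2
      rw [ZMod.intCast_eq_intCast_iff_dvd_sub] at e1 e2
      push_cast at e1 e2
      exact ⟨e1, e2⟩
    have h2 := diff_InL n g⁻¹ h1
    rw [inv_app_self, show ((0 : ℤ), (0 : ℤ)) = (0 : ℤ × ℤ) from rfl, sub_zero] at h2
    exact h2
  refine Finite.of_injective (fun q : P4 ⧸ Lam n => φ (Quotient.out q)) ?_
  intro q q' hq
  have := hφ _ _ hq
  rw [← QuotientGroup.eq] at this
  simpa using this

theorem Lam_infinite (n : ℕ) : (Lam n : Set P4).Infinite := by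
  have hinj : Function.Injective (fun k : ℤ => mkE false 1 1 (2 ^ n * k) 0) := by
    intro a b hab
    have h1 := congrArg (fun g : P4 => (g.1 (0, 0)).1) hab
    simp only [mkE_apply, mkFun, if_false, Bool.false_eq_true, mul_zero, zero_add] at h1
    exact mul_left_cancel₀ (by positivity) h1
  refine (Set.infinite_range_of_injective hinj).mono ?_
  rintro _ ⟨k, rfl⟩
  rw [SetLike.mem_coe, mem_Lam_mkE]
  exact ⟨dvd_mul_right _ _, dvd_zero _⟩

end Pool.Agent.Lib.MP_153b2f_an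
end
end

section

section

/-!
# A colouring of the plane with three colours, invariant under reflections

Points near a vertex of the square grid of side `L` get colour 2, the remaining points near a
grid line get colour 1, all others get colour 0. Monochromatic paths with steps of length at most
`R` stay in a bounded region.
-/

namespace Pool.Agent.Lib.MP_153b2f_an

open Set Relation

/-- `x` is within `r` of a multiple of `L` -/
def Near (L r x : ℤ) : Prop := ∃ k : ℤ, |x - k * L| ≤ r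

theorem Near.neg {L r x : ℤ} (h : Near L r x) : Near L r (-x) := by
  obtain ⟨k, hk⟩ := h
  refine ⟨-k, ?_⟩
  rw [show -x - -k * L = -(x - k * L) by ring, abs_neg]
  exact hk

theorem near_neg {L r x : ℤ} : Near L r (-x) ↔ Near L r x :=
  ⟨fun h => by simpa using h.neg, Near.neg⟩

theorem Near.add {L r x v : ℤ} (hv : L ∣ v) (h : Near L r x) : Near L r (x + v) := by
  obtain ⟨k, hk⟩ := h
  obtain ⟨l, rfl⟩ := hv
  refine ⟨k + l, ?_⟩
  rw [show x + L * l - (k + l) * L = x - k * L by ring]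
  exact hk

theorem near_add {L r x v : ℤ} (hv : L ∣ v) : Near L r (x + v) ↔ Near L r x :=
  ⟨fun h => by simpa using h.add ((dvd_neg (a := L)).2 hv), Near.add hv⟩

theorem near_unit_add {L r x v : ℤ} (e : ℤˣ) (hv : L ∣ v) :
    Near L r (e * x + v) ↔ Near L r x := by
  rw [near_add hv]
  rcases Int.units_eq_one_or e with rfl | rfl
  · simp
  · simp [near_neg]

open Classical in
/-- the colouring -/
noncomputable def fcol (L R : ℤ) (p : ℤ × ℤ) : Fin 3 :=
  if Near L (4 * R) p.1 ∧ Near L (4 * R) p.2 then 2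
  else if Near L R p.1 ∨ Near L R p.2 then 1 else 0

theorem fcol_congr {L R : ℤ} {p q : ℤ × ℤ}
    (h4 : (Near L (4 * R) p.1 ∧ Near L (4 * R) p.2) ↔ (Near L (4 * R) q.1 ∧ Near L (4 * R) q.2))
    (h1 : (Near L R p.1 ∨ Near L R p.2) ↔ (Near L R q.1 ∨ Near L R q.2)) :
    fcol L R p = fcol L R q := by
  unfold fcol
  by_cases ha : Near L (4 * R) p.1 ∧ Near L (4 * R) p.2
  · rw [if_pos ha, if_pos (h4.1 ha)]
  · rw [if_neg ha, if_neg (fun h => ha (h4.2 h))]
    by_cases hb : Near L R p.1 ∨ Near L R p.2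
    · rw [if_pos hb, if_pos (h1.1 hb)]
    · rw [if_neg hb, if_neg (fun h => hb (h1.2 h))]

theorem fcol_inv (n : ℕ) (R : ℤ) {g : P4} (hg : g ∈ Lam n) (p : ℤ × ℤ) :
    fcol (2 ^ n) R (g.1 p) = fcol (2 ^ n) R p := by
  obtain ⟨sw, e, f, v, w, rfl⟩ := exists_mkE g
  rw [mem_Lam_mkE] at hg
  rw [mkE_apply]
  cases sw
  · have e1 : ∀ r, Near (2 ^ n) r (mkFun false e f v w p).1 ↔ Near (2 ^ n) r p.1 :=
      fun r => near_unit_add e hg.1
    have e2 : ∀ r, Near (2 ^ n) r (mkFun false e f v w p).2 ↔ Near (2 ^ n) r p.2 :=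
      fun r => near_unit_add f hg.2
    exact fcol_congr (by rw [e1, e2]) (by rw [e1, e2])
  · have e1 : ∀ r, Near (2 ^ n) r (mkFun true e f v w p).1 ↔ Near (2 ^ n) r p.2 :=
      fun r => near_unit_add e hg.1
    have e2 : ∀ r, Near (2 ^ n) r (mkFun true e f v w p).2 ↔ Near (2 ^ n) r p.1 :=
      fun r => near_unit_add f hg.2
    exact fcol_congr (by rw [e1, e2, and_comm]) (by rw [e1, e2, or_comm])

/-- the regions in which monochromatic paths stay -/
def Reg (L R : ℤ) (k l : ℤ) (i : Fin 3) (p : ℤ × ℤ) : Prop :=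
  (i = 0 ∧ k * L + R < p.1 ∧ p.1 < k * L + L - R ∧ l * L + R < p.2 ∧ p.2 < l * L + L - R) ∨
  (i = 2 ∧ |p.1 - k * L| ≤ 4 * R ∧ |p.2 - l * L| ≤ 4 * R) ∨
  (i = 1 ∧ k * L + 4 * R < p.1 ∧ p.1 < k * L + L - 4 * R ∧ |p.2 - l * L| ≤ R) ∨
  (i = 1 ∧ |p.1 - k * L| ≤ R ∧ l * L + 4 * R < p.2 ∧ p.2 < l * L + L - 4 * R)

theorem not_near {L r x : ℤ} (hL : 0 < L) (h : ¬ Near L r x) :
    x / L * L + r < x ∧ x < x / L * L + L - r := by
  have h1 : ¬ |x - x / L * L| ≤ r := fun hh => h ⟨x / L, hh⟩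
  have h2 : ¬ |x - (x / L + 1) * L| ≤ r := fun hh => h ⟨x / L + 1, hh⟩
  have h3 : x / L * L + x % L = x := Int.ediv_mul_add_emod x L
  have h4 := Int.emod_nonneg x hL.ne'
  have h5 := Int.emod_lt_of_pos x hL
  rw [not_le] at h1 h2
  have e1 : |x - x / L * L| = x - x / L * L := abs_of_nonneg (by linarith)
  have e2 : |x - (x / L + 1) * L| = x / L * L + L - x := by
    rw [abs_of_nonpos (by linarith)]; ring
  constructor <;> linarith

theorem near_of {L r x k : ℤ} (h : |x - k * L| ≤ r) : Near L r x := ⟨k, h⟩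

theorem reg_exists {L R : ℤ} (hL : 0 < L) (hR : 0 ≤ R) (p : ℤ × ℤ) :
    ∃ k l, Reg L R k l (fcol L R p) p := by
  classical
  unfold fcol
  split_ifs with h1 h2
  · obtain ⟨⟨k, hk⟩, ⟨l, hl⟩⟩ := h1
    exact ⟨k, l, Or.inr (Or.inl ⟨rfl, hk, hl⟩)⟩
  · rcases h2 with h2 | h2
    · have h3 : ¬ Near L (4 * R) p.2 := by
        intro h3
        obtain ⟨k, hk⟩ := h2
        exact h1 ⟨⟨k, by linarith⟩, h3⟩
      obtain ⟨k, hk⟩ := h2
      exact ⟨k, p.2 / L, Or.inr (Or.inr (Or.inr ⟨rfl, hk, not_near hL h3⟩))⟩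
    · have h3 : ¬ Near L (4 * R) p.1 := by
        intro h3
        obtain ⟨k, hk⟩ := h2
        exact h1 ⟨h3, ⟨k, by linarith⟩⟩
      obtain ⟨l, hl⟩ := h2
      have := not_near hL h3
      exact ⟨p.1 / L, l, Or.inr (Or.inr (Or.inl ⟨rfl, this.1, this.2, hl⟩))⟩
  · rw [not_or] at h2
    have h3 := not_near hL h2.1
    have h4 := not_near hL h2.2
    exact ⟨p.1 / L, p.2 / L, Or.inl ⟨rfl, h3.1, h3.2, h4⟩⟩

/-- two close points near multiples of `L` are near the same multiple -/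
theorem same_mult {L a b : ℤ} (hL : 0 < L) (h : |a * L - b * L| < L) : a = b := by
  rw [← sub_mul, abs_mul, abs_of_pos hL] at h
  have : |a - b| < 1 := by
    by_contra hh
    rw [not_lt] at hh
    have := mul_le_mul_of_nonneg_right hh hL.le
    linarith
  have h2 : a - b = 0 := by
    rw [← abs_eq_zero]
    have := abs_nonneg (a - b)
    omega
  linarith

theorem fcol_eq_two {L R : ℤ} {p : ℤ × ℤ} :
    fcol L R p = 2 ↔ Near L (4 * R) p.1 ∧ Near L (4 * R) p.2 := by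
  classical
  unfold fcol
  split_ifs with h1 h2
  · simp [h1]
  · simp only [h1, iff_false]; decide
  · simp only [h1, iff_false]; decide

theorem fcol_eq_one {L R : ℤ} {p : ℤ × ℤ} (h : fcol L R p = 1) :
    ¬ (Near L (4 * R) p.1 ∧ Near L (4 * R) p.2) ∧ (Near L R p.1 ∨ Near L R p.2) := by
  classical
  unfold fcol at h
  split_ifs at h with h1 h2
  · exact absurd h (by decide)
  · exact ⟨h1, h2⟩
  · exact absurd h (by decide)

theorem fcol_eq_zero {L R : ℤ} {p : ℤ × ℤ} (h : fcol L R p = 0) :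
    ¬ Near L R p.1 ∧ ¬ Near L R p.2 := by
  classical
  unfold fcol at h
  split_ifs at h with h1 h2
  · exact absurd h (by decide)
  · exact absurd h (by decide)
  · exact not_or.1 h2

theorem reg_step {L R : ℤ} (hR : 0 ≤ R) (hL : 20 * R < L) {k l : ℤ} {p q : ℤ × ℤ}
    (hp : Reg L R k l (fcol L R p) p) (hpq : Box R q p) (hc : fcol L R q = fcol L R p) :
    Reg L R k l (fcol L R q) q := by
  have hL0 : 0 < L := by linarith
  obtain ⟨hb1, hb2⟩ := hpq
  rw [abs_le] at hb1 hb2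
  rw [← hc] at hp
  rcases hp with ⟨hi, h1, h2, h3, h4⟩ | ⟨hi, h1, h2⟩ | ⟨hi, h1, h2, h3⟩ | ⟨hi, h1, h2, h3⟩
  · left
    obtain ⟨n1, n2⟩ := fcol_eq_zero hi
    refine ⟨hi, ?_, ?_, ?_, ?_⟩
    · by_contra hh; exact n1 ⟨k, by rw [abs_le]; constructor <;> linarith⟩
    · by_contra hh; exact n1 ⟨k + 1, by rw [abs_le]; constructor <;> linarith⟩
    · by_contra hh; exact n2 ⟨l, by rw [abs_le]; constructor <;> linarith⟩
    · by_contra hh; exact n2 ⟨l + 1, by rw [abs_le]; constructor <;> linarith⟩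
  · right; left
    obtain ⟨⟨k', hk'⟩, ⟨l', hl'⟩⟩ := fcol_eq_two.1 hi
    rw [abs_le] at h1 h2
    have hk2 := hk'
    have hl2 := hl'
    rw [abs_le] at hk2 hl2
    have ek : k' = k := same_mult hL0 (by rw [abs_lt]; constructor <;> linarith)
    have el : l' = l := same_mult hL0 (by rw [abs_lt]; constructor <;> linarith)
    rw [ek] at hk'
    rw [el] at hl'
    exact ⟨hi, hk', hl'⟩
  · right; right; left
    obtain ⟨n1, n2⟩ := fcol_eq_one hi
    rw [abs_le] at h3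
    have hy4 : Near L (4 * R) q.2 := ⟨l, by rw [abs_le]; constructor <;> linarith⟩
    have nx : ¬ Near L (4 * R) q.1 := fun h => n1 ⟨h, hy4⟩
    have hy : Near L R q.2 := by
      rcases n2 with ⟨k', hk'⟩ | h
      · exact absurd ⟨k', by linarith⟩ nx
      · exact h
    obtain ⟨l', hl'⟩ := hy
    have hl2 := hl'
    rw [abs_le] at hl2
    have el : l' = l := same_mult hL0 (by rw [abs_lt]; constructor <;> linarith)
    rw [el] at hl'
    refine ⟨hi, ?_, ?_, hl'⟩
    · by_contra hh; exact nx ⟨k, by rw [abs_le]; constructor <;> linarith⟩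
    · by_contra hh; exact nx ⟨k + 1, by rw [abs_le]; constructor <;> linarith⟩
  · right; right; right
    obtain ⟨n1, n2⟩ := fcol_eq_one hi
    rw [abs_le] at h1
    have hx4 : Near L (4 * R) q.1 := ⟨k, by rw [abs_le]; constructor <;> linarith⟩
    have ny : ¬ Near L (4 * R) q.2 := fun h => n1 ⟨hx4, h⟩
    have hx : Near L R q.1 := by
      rcases n2 with h | ⟨l', hl'⟩
      · exact h
      · exact absurd ⟨l', by linarith⟩ ny
    obtain ⟨k', hk'⟩ := hx
    have hk2 := hk'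
    rw [abs_le] at hk2
    have ek : k' = k := same_mult hL0 (by rw [abs_lt]; constructor <;> linarith)
    rw [ek] at hk'
    refine ⟨hi, hk', ?_, ?_⟩
    · by_contra hh; exact ny ⟨l, by rw [abs_le]; constructor <;> linarith⟩
    · by_contra hh; exact ny ⟨l + 1, by rw [abs_le]; constructor <;> linarith⟩

theorem reg_box {L R : ℤ} (hR : 0 ≤ R) (hL : 20 * R < L) {k l : ℤ} {i : Fin 3} {p q : ℤ × ℤ}
    (hp : Reg L R k l i p) (hq : Reg L R k l i q) : Box (2 * L) q p := by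
  have hp' : k * L - L ≤ p.1 ∧ p.1 ≤ k * L + L ∧ l * L - L ≤ p.2 ∧ p.2 ≤ l * L + L := by
    rcases hp with ⟨-, h1, h2, h3, h4⟩ | ⟨-, h1, h2⟩ | ⟨-, h1, h2, h3⟩ | ⟨-, h1, h2, h3⟩
    · refine ⟨?_, ?_, ?_, ?_⟩ <;> linarith
    · rw [abs_le] at h1 h2; refine ⟨?_, ?_, ?_, ?_⟩ <;> linarith
    · rw [abs_le] at h3; refine ⟨?_, ?_, ?_, ?_⟩ <;> linarith
    · rw [abs_le] at h1; refine ⟨?_, ?_, ?_, ?_⟩ <;> linarith
  have hq' : k * L - L ≤ q.1 ∧ q.1 ≤ k * L + L ∧ l * L - L ≤ q.2 ∧ q.2 ≤ l * L + L := by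
    rcases hq with ⟨-, h1, h2, h3, h4⟩ | ⟨-, h1, h2⟩ | ⟨-, h1, h2, h3⟩ | ⟨-, h1, h2, h3⟩
    · refine ⟨?_, ?_, ?_, ?_⟩ <;> linarith
    · rw [abs_le] at h1 h2; refine ⟨?_, ?_, ?_, ?_⟩ <;> linarith
    · rw [abs_le] at h3; refine ⟨?_, ?_, ?_, ?_⟩ <;> linarith
    · rw [abs_le] at h1; refine ⟨?_, ?_, ?_, ?_⟩ <;> linarith
  constructor <;> rw [abs_le] <;> constructor <;> linarith

/-- Hypothesis of `dad_le` for the group p4m and `d = 2`. -/
theorem dad_hyp (F : Set P4) (hF : F.Finite) : ∃ n : ℕ, ∃ c : P4 → Fin (2 + 1),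
      (∀ g, ∀ l ∈ Lam n, c (g * l) = c g) ∧
      ∃ E : Set P4, E.Finite ∧ ∀ u v, Conn F c u v → v * u⁻¹ ∈ E := by
  -- a bound for the displacements
  obtain ⟨R, hR0, hR⟩ : ∃ R : ℤ, 0 ≤ R ∧ ∀ k ∈ F, Box R ((k⁻¹).1 (0, 0)) (0, 0) := by
    obtain ⟨B, hB⟩ := (hF.image (fun k : P4 =>
      max |((k⁻¹).1 (0, 0)).1| |((k⁻¹).1 (0, 0)).2|)).bddAbove
    refine ⟨max B 0, le_max_right _ _, fun k hk => ?_⟩
    have h1 := hB ⟨k, hk, rfl⟩
    simp only [max_le_iff] at h1
    refine ⟨?_, ?_⟩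
    · simpa using Or.inl h1.1
    · simpa using Or.inl h1.2
  obtain ⟨n, hn⟩ : ∃ n : ℕ, 20 * R < (2 : ℤ) ^ n := by
    refine ⟨(20 * R).toNat, ?_⟩
    have h1 : (20 * R).toNat < 2 ^ (20 * R).toNat := Nat.lt_two_pow_self
    have h2 : (20 * R) = ((20 * R).toNat : ℤ) := (Int.toNat_of_nonneg (by linarith)).symm
    calc 20 * R = ((20 * R).toNat : ℤ) := h2
      _ < ((2 ^ (20 * R).toNat : ℕ) : ℤ) := by exact_mod_cast h1
      _ = _ := by push_cast; rfl
  refine ⟨n, fun g => fcol (2 ^ n) R ((g⁻¹).1 (0, 0)), ?_, {g | Box (2 * 2 ^ n) ((g⁻¹).1 (0, 0))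
    (0, 0)}, finite_box_inv _, ?_⟩
  · intro g l hl
    show fcol (2 ^ n) R (((g * l)⁻¹).1 (0, 0)) = fcol (2 ^ n) R ((g⁻¹).1 (0, 0))
    rw [mul_inv_rev, mul_app]
    exact fcol_inv n R ((Lam n).inv_mem hl) _
  · intro u v huv
    obtain ⟨k, l, hkl⟩ := reg_exists (L := 2 ^ n) (R := R) (by positivity) hR0 ((u⁻¹).1 (0, 0))
    have hreg : Reg (2 ^ n) R k l (fcol (2 ^ n) R ((v⁻¹).1 (0, 0))) ((v⁻¹).1 (0, 0)) := by
      induction huv with
      | refl => exact hkl
      | @tail v w _ hstep ih =>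
        obtain ⟨a, ha, hw, hc⟩ := hstep
        refine reg_step hR0 hn ih ?_ hc
        rw [hw, mul_inv_rev, mul_app]
        exact box_map _ (hR a ha)
    have hcol : fcol (2 ^ n) R ((v⁻¹).1 (0, 0)) = fcol (2 ^ n) R ((u⁻¹).1 (0, 0)) :=
      Conn.color (c := fun g : P4 => fcol (2 ^ n) R ((g⁻¹).1 (0, 0))) huv
    rw [hcol] at hreg
    have hbox := reg_box hR0 hn hkl hreg
    show Box (2 * 2 ^ n) (((v * u⁻¹)⁻¹).1 (0, 0)) (0, 0)
    have h := box_map u hbox
    rw [app_inv_self] at h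
    rw [mul_inv_rev, inv_inv, mul_app]
    exact h

end Pool.Agent.Lib.MP_153b2f_an
end

section

/-!
# Invariant monochromatic clusters for p4m, from the Game of Y
-/

namespace Pool.Agent.Lib.MP_153b2f_an

open Set Relation

/-- the finite set of steps at scale `2ⁿ` -/
def FF (n : ℕ) : Set P4 := {g | g ∈ Lam n ∧ Box (2 ^ n) ((g⁻¹).1 (0, 0)) (0, 0)}

theorem FF_finite (n : ℕ) : (FF n).Finite := (finite_box_inv (2 ^ n)).subset fun _ h => h.2

theorem FF_inv (n : ℕ) : ∀ k ∈ FF n, k⁻¹ ∈ FF n := by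
  intro k hk
  refine ⟨(Lam n).inv_mem hk.1, ?_⟩
  rw [inv_inv]
  have h := box_map k hk.2
  rw [app_inv_self] at h
  exact box_symm h

theorem one_mem_FF (n : ℕ) : (1 : P4) ∈ FF n := by
  refine ⟨(Lam n).one_mem, ?_⟩
  rw [inv_one]
  show Box (2 ^ n) (0, 0) (0, 0)
  unfold Box
  simp

theorem mkE_mem_FF {n : ℕ} {sw : Bool} {e f : ℤˣ} {v w : ℤ} (hv : (2 : ℤ) ^ n ∣ v)
    (hw : (2 : ℤ) ^ n ∣ w) (h1 : |v| ≤ 2 ^ n) (h2 : |w| ≤ 2 ^ n) : mkE sw e f v w ∈ FF n := by
  have hmem : mkE sw e f v w ∈ Lam n := (mem_Lam_mkE n sw e f v w).2 ⟨hv, hw⟩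
  refine ⟨hmem, ?_⟩
  have hb : Box (2 ^ n) ((mkE sw e f v w).1 (0, 0)) (0, 0) := by
    rw [mkE_apply]
    unfold Box
    cases sw <;> simp only [mkFun, if_true, if_false, Bool.false_eq_true, mul_zero, zero_add,
      sub_zero] <;> exact ⟨h1, h2⟩
  have h := box_map (mkE sw e f v w)⁻¹ hb
  rw [inv_app_self] at h
  exact box_symm h

/-- reflection in the horizontal axis -/
def rA : P4 := mkE false 1 (-1) 0 0
/-- reflection in the diagonal -/
def rB : P4 := mkE true 1 1 0 0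
/-- reflection in the vertical axis -/
def rA' : P4 := mkE false (-1) 1 0 0
/-- reflection in the line `x = L/2` -/
def rC (L : ℤ) : P4 := mkE false (-1) 1 L 0
/-- translation -/
def tr (v w : ℤ) : P4 := mkE false 1 1 v w

theorem tr_app (v w : ℤ) (p : ℤ × ℤ) : (tr v w).1 p = (p.1 + v, p.2 + w) := by
  simp [tr, mkE_apply, mkFun]

theorem tr_mul (v w v' w' : ℤ) : tr v w * tr v' w' = tr (v + v') (w + w') := by
  refine P4.ext' fun p => ?_
  rw [mul_app, tr_app, tr_app, tr_app]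
  ext <;> simp only <;> ring

theorem tr_zero : tr 0 0 = 1 := by
  refine P4.ext' fun p => ?_
  rw [tr_app]
  show _ = p
  simp

theorem tr_inv (v w : ℤ) : (tr v w)⁻¹ = tr (-v) (-w) := by
  rw [inv_eq_iff_mul_eq_one, tr_mul]
  simp [tr_zero]

/-- generation of `Λₘ` by three reflections -/
theorem gen_Lam (m : ℕ) (S : Subgroup P4) (hA : rA ∈ S) (hB : rB ∈ S) (hC : rC (2 ^ m) ∈ S) :
    Lam m ≤ S := by
  have hA' : rA' ∈ S := by
    have e : rA' = rB * rA * rB := by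
      refine P4.ext' fun p => ?_
      rw [mul_app, mul_app]
      simp [rA', rA, rB, mkE_apply, mkFun]
    rw [e]
    exact S.mul_mem (S.mul_mem hB hA) hB
  have hT1 : tr (2 ^ m) 0 ∈ S := by
    have e : tr (2 ^ m) 0 = rC (2 ^ m) * rA' := by
      refine P4.ext' fun p => ?_
      rw [mul_app, tr_app]
      simp [rA', rC, mkE_apply, mkFun]
    rw [e]
    exact S.mul_mem hC hA'
  have hT2 : tr 0 (2 ^ m) ∈ S := by
    have e : tr 0 (2 ^ m) = rB * tr (2 ^ m) 0 * rB := by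
      refine P4.ext' fun p => ?_
      rw [mul_app, mul_app, tr_app]
      simp [rB, tr, mkE_apply, mkFun]
    rw [e]
    exact S.mul_mem (S.mul_mem hB hT1) hB
  have hZ1 : ∀ k : ℕ, tr (2 ^ m * k) 0 ∈ S := by
    intro k
    induction k with
    | zero => simp [tr_zero]
    | succ k ih =>
      have e : tr (2 ^ m * ((k + 1 : ℕ) : ℤ)) 0 = tr (2 ^ m * k) 0 * tr (2 ^ m) 0 := by
        rw [tr_mul]; push_cast; ring_nf
      rw [e]
      exact S.mul_mem ih hT1
  have hZ2 : ∀ k : ℕ, tr 0 (2 ^ m * k) ∈ S := by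
    intro k
    induction k with
    | zero => simp [tr_zero]
    | succ k ih =>
      have e : tr 0 (2 ^ m * ((k + 1 : ℕ) : ℤ)) = tr 0 (2 ^ m * k) * tr 0 (2 ^ m) := by
        rw [tr_mul]; push_cast; ring_nf
      rw [e]
      exact S.mul_mem ih hT2
  have hI1 : ∀ k : ℤ, tr (2 ^ m * k) 0 ∈ S := by
    intro k
    obtain ⟨n, rfl | rfl⟩ := k.eq_nat_or_neg
    · exact hZ1 n
    · have := S.inv_mem (hZ1 n)
      rw [tr_inv] at this
      simpa using this
  have hI2 : ∀ k : ℤ, tr 0 (2 ^ m * k) ∈ S := by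
    intro k
    obtain ⟨n, rfl | rfl⟩ := k.eq_nat_or_neg
    · exact hZ2 n
    · have := S.inv_mem (hZ2 n)
      rw [tr_inv] at this
      simpa using this
  intro g hg
  obtain ⟨sw, e, f, v, w, rfl⟩ := exists_mkE g
  obtain ⟨⟨k, rfl⟩, ⟨l, rfl⟩⟩ := (mem_Lam_mkE m sw e f v w).1 hg
  have hlin : mkE sw e f 0 0 ∈ S := by
    have h1 : mkE false e 1 0 0 ∈ S := by
      rcases Int.units_eq_one_or e with rfl | rfl
      · have h0 : tr 0 0 ∈ S := by rw [tr_zero]; exact S.one_mem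
        exact h0
      · exact hA'
    have h2 : mkE false 1 f 0 0 ∈ S := by
      rcases Int.units_eq_one_or f with rfl | rfl
      · have h0 : tr 0 0 ∈ S := by rw [tr_zero]; exact S.one_mem
        exact h0
      · exact hA
    have h3 : mkE false e f 0 0 ∈ S := by
      have e3 : mkE false e f 0 0 = mkE false e 1 0 0 * mkE false 1 f 0 0 := by
        refine P4.ext' fun p => ?_
        rw [mul_app]
        simp [mkE_apply, mkFun]
      rw [e3]
      exact S.mul_mem h1 h2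
    cases sw
    · exact h3
    · have e4 : mkE true e f 0 0 = mkE false e f 0 0 * rB := by
        refine P4.ext' fun p => ?_
        rw [mul_app]
        simp [rB, mkE_apply, mkFun]
      rw [e4]
      exact S.mul_mem h3 hB
  have e5 : mkE sw e f (2 ^ m * k) (2 ^ m * l) =
      tr (2 ^ m * k) 0 * tr 0 (2 ^ m * l) * mkE sw e f 0 0 := by
    refine P4.ext' fun p => ?_
    rw [tr_mul, mul_app, tr_app]
    cases sw <;> simp [mkE_apply, mkFun]
  rw [e5]
  exact S.mul_mem (S.mul_mem (hI1 k) (hI2 l)) hlin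

/-- the translation attached to a cell of the board -/
def cellT (s : ℤ) (p : Cell) : P4 := tr (-(s * (p.1 + p.2.1))) (-(s * p.1))

theorem link_step {n M : ℕ} {c : P4 → Bool} {χ : Bool} {p q : Cell}
    (h : Link M (fun p => c (cellT (2 ^ n) p)) χ p q) :
    Stp (FF n) c (cellT (2 ^ n) p) (cellT (2 ^ n) q) := by
  obtain ⟨-, hn, hp, hq⟩ := h
  obtain ⟨i, j, k⟩ := p
  obtain ⟨i', j', k'⟩ := q
  have hp' : c (cellT (2 ^ n) (i, j, k)) = χ := hp
  have hq' : c (cellT (2 ^ n) (i', j', k')) = χ := hq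
  refine ⟨cellT (2 ^ n) (i', j', k') * (cellT (2 ^ n) (i, j, k))⁻¹, ?_, by group, by
    rw [hp', hq']⟩
  unfold cellT
  rw [tr_inv, tr_mul]
  unfold Nbr at hn
  simp only at hn ⊢
  refine mkE_mem_FF ?_ ?_ ?_ ?_
  · exact ⟨(i + j : ℤ) - (i' + j'), by ring⟩
  · exact ⟨(i : ℤ) - i', by ring⟩
  · have e : -((2 : ℤ) ^ n * ((i' : ℤ) + j')) + -(-(2 ^ n * ((i : ℤ) + j))) =
        2 ^ n * (((i : ℤ) + j) - (i' + j')) := by ring
    rw [e, abs_mul, abs_of_pos (by positivity : (0 : ℤ) < 2 ^ n)]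
    have h1 : |((i : ℤ) + j) - (i' + j')| ≤ 1 := by
      rw [abs_le]; omega
    nlinarith [(by positivity : (0 : ℤ) < 2 ^ n)]
  · have e : -((2 : ℤ) ^ n * (i' : ℤ)) + -(-(2 ^ n * (i : ℤ))) = 2 ^ n * ((i : ℤ) - i') := by ring
    rw [e, abs_mul, abs_of_pos (by positivity : (0 : ℤ) < 2 ^ n)]
    have h1 : |(i : ℤ) - i'| ≤ 1 := by
      rw [abs_le]; omega
    nlinarith [(by positivity : (0 : ℤ) < 2 ^ n)]

/-- Hypothesis of `not_fdc` for the group p4m. -/
theorem conn_hyp (n m : ℕ) (hnm : n < m) (c : P4 → Bool)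
    (hc : ∀ g, ∀ l ∈ Lam m, c (g * l) = c g) :
    ∃ γ ∈ Lam n, ∀ μ ∈ Lam m, Conn (FF n) c γ (γ * μ) := by
  obtain ⟨r, rfl⟩ : ∃ r, m = n + 1 + r := ⟨m - (n + 1), by omega⟩
  obtain ⟨χ, p₁, p₂, p₃, z1, z2, z3, s1, s2, s3, c1, c2, c3, l12, l13⟩ :=
    gameY (2 ^ r) (fun p => c (cellT (2 ^ n) p))
  set γ : P4 := cellT (2 ^ n) p₁ with hγ
  have lift : ∀ q, ReflTransGen (Link (2 ^ r) (fun p => c (cellT (2 ^ n) p)) χ) p₁ q →
      Conn (FF n) c γ (cellT (2 ^ n) q) := by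
    intro q hq
    induction hq with
    | refl => exact ReflTransGen.refl
    | tail _ h2 ih => exact ReflTransGen.tail ih (link_step h2)
  have hγn : γ ∈ Lam n := by
    rw [hγ]
    exact (mem_Lam_mkE n _ _ _ _ _).2 ⟨⟨-((p₁.1 : ℤ) + p₁.2.1), by ring⟩, ⟨-(p₁.1 : ℤ), by ring⟩⟩
  refine ⟨γ, hγn, ?_⟩
  -- the subgroup of those `μ` which preserve the cluster of `γ`
  let S : Subgroup P4 :=
    { carrier := {μ | μ ∈ Lam (n + 1 + r) ∧ Conn (FF n) c γ (γ * μ)}
      mul_mem' := by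
        rintro a b ⟨ha, ha'⟩ ⟨hb, hb'⟩
        refine ⟨(Lam _).mul_mem ha hb, ?_⟩
        have h1 := Conn.mul_right (fun g => hc g b hb) ha'
        rw [mul_assoc] at h1
        exact hb'.trans' h1
      one_mem' := ⟨(Lam _).one_mem, by rw [mul_one]; exact ReflTransGen.refl⟩
      inv_mem' := by
        rintro a ⟨ha, ha'⟩
        refine ⟨(Lam _).inv_mem ha, ?_⟩
        have h1 := Conn.mul_right (fun g => hc g a⁻¹ ((Lam _).inv_mem ha)) ha'
        rw [mul_inv_cancel_right] at h1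
        exact h1.symm' (FF_inv n) }
  have key : ∀ (q : Cell) (refl : P4) (k : P4), Conn (FF n) c γ (cellT (2 ^ n) q) →
      refl ∈ Lam (n + 1 + r) → k ∈ FF n → cellT (2 ^ n) q * refl = k * cellT (2 ^ n) q →
      refl ∈ S := by
    intro q refl k hq hrefl hk hkk
    refine ⟨hrefl, ?_⟩
    have h1 : Conn (FF n) c (cellT (2 ^ n) q) (cellT (2 ^ n) q * refl) :=
      ReflTransGen.single ⟨k, hk, hkk, hc _ _ hrefl⟩
    have h2 := Conn.mul_right (fun g => hc g refl hrefl) hq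
    exact (hq.trans' h1).trans' (h2.symm' (FF_inv n))
  have h2n : (0 : ℤ) ≤ 2 ^ n := by positivity
  have hA : rA ∈ S := by
    refine key p₁ rA rA ReflTransGen.refl ?_ ?_ ?_
    · exact (mem_Lam_mkE _ _ _ _ _ _).2 ⟨dvd_zero _, dvd_zero _⟩
    · exact mkE_mem_FF (dvd_zero _) (dvd_zero _) (by simp) (by simp)
    · refine P4.ext' fun p => ?_
      rw [mul_app, mul_app]
      unfold cellT
      rw [tr_app, tr_app, z1]
      simp [rA, mkE_apply, mkFun]
  have hB : rB ∈ S := by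
    refine key p₂ rB rB (lift _ l12) ?_ ?_ ?_
    · exact (mem_Lam_mkE _ _ _ _ _ _).2 ⟨dvd_zero _, dvd_zero _⟩
    · exact mkE_mem_FF (dvd_zero _) (dvd_zero _) (by simp) (by simp)
    · refine P4.ext' fun p => ?_
      rw [mul_app, mul_app]
      unfold cellT
      rw [tr_app, tr_app, z2]
      simp [rB, mkE_apply, mkFun]
  have hC : rC (2 ^ (n + 1 + r)) ∈ S := by
    refine key p₃ (rC (2 ^ (n + 1 + r))) rA' (lift _ l13) ?_ ?_ ?_
    · exact (mem_Lam_mkE _ _ _ _ _ _).2 ⟨dvd_refl _, dvd_zero _⟩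
    · exact mkE_mem_FF (dvd_zero _) (dvd_zero _) (by simp) (by simp)
    · refine P4.ext' fun p => ?_
      rw [mul_app, mul_app]
      unfold cellT
      rw [tr_app, tr_app]
      have hs : (p₃.1 : ℤ) + p₃.2.1 = 2 ^ r := by
        rw [z3] at s3
        have : p₃.1 + p₃.2.1 = 2 ^ r := by omega
        exact_mod_cast this
      rw [hs]
      simp only [rC, rA', mkE_apply, mkFun, if_false, Bool.false_eq_true, Units.val_neg,
        Units.val_one]
      ext
      · simp only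
        rw [pow_add, pow_add]
        ring
      · simp only
        ring
  have := gen_Lam (n + 1 + r) S hA hB hC
  intro μ hμ
  exact (this hμ).2

end Pool.Agent.Lib.MP_153b2f_an
end
end
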